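import Mathlib

/-!
# Numerical bounds for `x = 6 ^ (-1/9)`
-/

namespace D88

theorem num_lt {x : ℝ} (hx0 : 0 < x) (hx : x ^ 9 = 1 / 6) : x < 81949 / 100000 := by
  by_contra hh
  push Not at hh
  have h1 : (81949 / 100000 : ℝ) ^ 9 ≤ x ^ 9 := pow_le_pow_left₀ (by norm_num) hh 9
  rw [hx] at h1
  norm_num at h1

theorem num_gt {x : ℝ} (hx0 : 0 < x) (hx : x ^ 9 = 1 / 6) : 81948 / 100000 < x := by
  by_contra hh
  push Not at hh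
  have h1 : x ^ 9 ≤ (81948 / 100000 : ℝ) ^ 9 := pow_le_pow_left₀ hx0.le hh 9
  rw [hx] at h1
  norm_num at h1

theorem x5_le {x : ℝ} (hx0 : 0 < x) (hx : x ^ 9 = 1 / 6) : x ^ 5 ≤ 3696 / 10000 :=
  (pow_le_pow_left₀ hx0.le (num_lt hx0 hx).le 5).trans (by norm_num)

theorem x6_le {x : ℝ} (hx0 : 0 < x) (hx : x ^ 9 = 1 / 6) : x ^ 6 ≤ 3029 / 10000 :=
  (pow_le_pow_left₀ hx0.le (num_lt hx0 hx).le 6).trans (by norm_num)

theorem x7_le {x : ℝ} (hx0 : 0 < x) (hx : x ^ 9 = 1 / 6) : x ^ 7 ≤ 24822 / 100000 :=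
  (pow_le_pow_left₀ hx0.le (num_lt hx0 hx).le 7).trans (by norm_num)

theorem x10_le {x : ℝ} (hx0 : 0 < x) (hx : x ^ 9 = 1 / 6) : 2 * x ^ 4 * x ^ 6 ≤ 2732 / 10000 := by
  have h1 : 2 * x ^ 4 * x ^ 6 = 2 * x ^ 10 := by ring
  rw [h1]
  have := (pow_le_pow_left₀ hx0.le (num_lt hx0 hx).le 10)
  have h2 : (81949 / 100000 : ℝ) ^ 10 ≤ 1366 / 10000 := by norm_num
  linarith

end D88
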