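import Pool.Agent.D88.Pent2

/-!
# Caps: exact pairs, the third order trick, low vertices
-/

open Finset Classical H61DIS

namespace D88

noncomputable section

variable {V : Type*} {G : SimpleGraph V} {S : Finset V} {x : ℝ} {v a b c d e : V}

/-- Induction hypotheses, minimum degree five and `h > 1`. -/
structure Ctx (G : SimpleGraph V) (x : ℝ) (S : Finset V) : Prop where
  hx0 : 0 < x
  hx : x ^ 9 = 1 / 6
  IH1 : ∀ S', S' ⊂ S → h G x S' ≤ 1
  IH2 : ∀ S', S' ⊂ S → (∃ v ∈ S', dg G S' v ≤ 3) → h G x S' ≤ 2 * x ^ 4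
  h5 : ∀ w ∈ S, 5 ≤ dg G S w
  big : 1 < h G x S

theorem Ctx.x0 (C : Ctx G x S) : 0 ≤ x := C.hx0.le

theorem Ctx.x1 (C : Ctx G x S) : x ≤ 1 := by
  have := num_lt2 C.hx; linarith

theorem Ctx.num (C : Ctx G x S) : Num x := D88.num C.hx0 C.hx

/-- `S - N[u]` has a vertex of degree at most three. -/
def Low (G : SimpleGraph V) (S : Finset V) (u : V) : Prop :=
  ∃ y ∈ rem G S {u} ∅, dg G (rem G S {u} ∅) y ≤ 3

theorem Ctx.single (C : Ctx G x S) {u : V} (hu : u ∈ S) {k : ℕ} (hk : k ≤ dg G S u + 1) :
    B G x S {u} ∅ ≤ x ^ k := by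
  have := B_single (G := G) C.x0 C.x1 hu (by norm_num) (C.IH1 _ (rem_ssubset hu (by simp))) hk
  linarith

theorem Ctx.singleL (C : Ctx G x S) {u : V} (hu : u ∈ S) (hl : Low G S u) {k : ℕ}
    (hk : k ≤ dg G S u + 1) : B G x S {u} ∅ ≤ 2 * x ^ 4 * x ^ k :=
  B_single (G := G) C.x0 C.x1 hu (by have := C.hx0; positivity)
    (C.IH2 _ (rem_ssubset hu (by simp)) hl) hk

/-- A nonadjacent vertex of small residual degree. -/
theorem low_of (hu : c ∈ S) (hcu : c ≠ a) (hna : ¬ G.Adj a c)
    (hd : dg G S c ≤ 3 + (cn G S a c).card) : Low G S a := by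
  refine ⟨c, mem_rem_single hu hcu hna, ?_⟩
  have := dg_rem (G := G) (S := S) (T := {a}) (R := ∅) (Q := cn G S a c) (w := c)
    (by unfold cn; exact Finset.inter_subset_right)
    (by
      intro q hq
      unfold cn at hq
      exact not_mem_rem_of_adj (t := a) (by simp) (mem_nb.mp (Finset.mem_inter.mp hq).1).2)
  omega

theorem not_low (hl : ¬ Low G S a) (hu : c ∈ S) (hcu : c ≠ a) (hna : ¬ G.Adj a c) :
    4 + (cn G S a c).card ≤ dg G S c := by
  by_contra hh
  exact hl (low_of hu hcu hna (by omega))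

theorem cn_comm (a b : V) : cn G S a b = cn G S b a := by
  unfold cn; rw [Finset.inter_comm]

/-- The size of `out a ∪ out b`. -/
theorem uni_card (hv : v ∈ S) (ha : a ∈ nb G S v) (hb : b ∈ nb G S v) :
    (out G S v a ∪ out G S v b).card + (inn G S v a).card + (inn G S v b).card +
      (cn G S a b).card + 1 = dg G S a + dg G S b +
      (inn G S v a ∩ inn G S v b).card := by
  have h1 := dg_split hv ha
  have h2 := dg_split hv hb
  have h3 := cn_split hv ha hb
  have h4 := Finset.card_union_add_card_inter (out G S v a) (out G S v b)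
  omega

/-- The star lemma. -/
theorem star (h5 : ∀ w ∈ S, 5 ≤ dg G S w) (hv : v ∈ S) (ha : a ∈ nb G S v) (hb : b ∈ nb G S v)
    (hba : b ≠ a) (hna : ¬ G.Adj a b) (hl : ¬ Low G S a) :
    8 + (inn G S v a ∩ inn G S v b).card ≤
      (out G S v a ∪ out G S v b).card + (inn G S v a).card + (inn G S v b).card := by
  have h1 := uni_card hv ha hb
  have h2 := not_low hl (mem_nb.mp hb).1 hba hna
  have h3 := h5 a (mem_nb.mp ha).1
  omega

theorem PE_adj (hab : G.Adj a b) : PE G x S v a b = 0 := by
  unfold PE B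
  have : cnt G S {a, b} (nb G S v \ {a, b}) = 0 := by
    unfold cnt
    rw [Finset.card_eq_zero, Finset.filter_eq_empty_iff]
    intro D hD hh
    exact (mem_dis.mp hD).2.1 a (hh.1 (by simp)) b (hh.1 (by simp)) hab
  rw [this]; simp

theorem pow_nonneg' (C : Ctx G x S) (k : ℕ) : 0 ≤ x ^ k := pow_nonneg C.x0 k

/-- Cap of an exact pair. -/
theorem Ctx.pair (C : Ctx G x S) (hv : v ∈ S) (h5 : dg G S v = 5) (ha : a ∈ nb G S v) {k : ℕ}
    (hk : ¬ G.Adj a b → k ≤ 6 + (out G S v a ∪ out G S v b).card) :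
    PE G x S v a b ≤ x ^ k := by
  by_cases hab : G.Adj a b
  · rw [PE_adj hab]; exact pow_nonneg' C k
  · unfold PE
    have := B_le (G := G) (S := S) (T := {a, b}) (R := nb G S v \ {a, b}) C.x0 C.x1 (κ := 1)
      (C.IH1 _ (rem_ssubset (mem_nb.mp ha).1 (by simp)))
      (k := k) (by
        have h1 := pair_removed (b := b) hv h5 ha
        have h2 := hk hab
        omega)
    linarith

/-- The third order trick. -/
theorem Ctx.trick (C : Ctx G x S) {T R : Finset V} {k : ℕ} (hT : ∃ t ∈ T, t ∈ S)
    (hk : k + (rem G S T R).card ≤ S.card) {u : V} (huS : u ∈ S) (huR : u ∈ R)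
    (huT : ∀ t ∈ T, ¬ G.Adj t u) (hm : (nb G (rem G S T R) u).card ≤ 4) :
    B G x S T R ≤ 2 * x ^ 4 * x ^ k := by
  obtain ⟨t, htT, htS⟩ := hT
  by_cases hlow : ∃ y ∈ rem G S T R, dg G (rem G S T R) y ≤ 3
  · exact B_le (G := G) C.x0 C.x1 (C.IH2 _ (rem_ssubset htS htT) hlow) hk
  push Not at hlow
  set Q := rem G S T R with hQ
  set W := nb G Q u with hW
  -- double counting
  have h1 : 2 * cnt G S T R ≤ ∑ w ∈ W, cnt G S (insert w T) R := by
    have e1 : ∀ w, cnt G S (insert w T) R =
        ∑ D ∈ (dis G S).filter (fun D => T ⊆ D ∧ Disjoint D R), if w ∈ D then 1 else 0 := by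
      intro w
      unfold cnt
      rw [← Finset.card_filter, Finset.filter_filter]
      congr 1
      apply Finset.filter_congr
      intro D _
      rw [Finset.insert_subset_iff]
      tauto
    simp_rw [e1]
    rw [Finset.sum_comm]
    unfold cnt
    rw [Finset.card_eq_sum_ones, Finset.mul_sum]
    apply Finset.sum_le_sum
    intro D hD
    rw [Finset.mem_filter] at hD
    obtain ⟨hD, hTD, hDR⟩ := hD
    have hD' := mem_dis.mp hD
    have huD : u ∉ D := fun hh => (Finset.disjoint_left.mp hDR) hh huR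
    have h2 := hD'.2.2 u huS huD
    have h3 : nb G D u ⊆ W.filter (fun w => w ∈ D) := by
      intro w hw
      rw [mem_nb] at hw
      rw [Finset.mem_filter, hW, mem_nb, hQ, mem_rem]
      refine ⟨⟨⟨hD'.1 hw.1, ?_, ?_, ?_⟩, hw.2⟩, hw.1⟩
      · intro hwT; exact huT w hwT hw.2.symm
      · intro hwR; exact (Finset.disjoint_left.mp hDR) hw.1 hwR
      · intro t ht; exact hD'.2.1 t (hTD ht) w hw.1
    rw [← Finset.card_filter]
    have := Finset.card_le_card h3
    omega
  have h2 : ∀ w ∈ W, B G x S (insert w T) R ≤ x ^ (k + 5) := by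
    intro w hw
    have hwQ : w ∈ Q := (mem_nb.mp hw).1
    have hwQ' := mem_rem.mp hwQ
    have := B_le (G := G) (S := S) (T := insert w T) (R := R) C.x0 C.x1 (κ := 1)
      (C.IH1 _ (rem_ssubset htS (Finset.mem_insert_of_mem htT)))
      (k := k + 5) (by
        have e1 : (insert w (nb G Q w)).card = dg G Q w + 1 :=
          Finset.card_insert_of_notMem (fun hh => G.irrefl (mem_nb.mp hh).2)
        have e2 : Disjoint (insert w (nb G Q w)) (rem G S (insert w T) R) := by
          rw [Finset.disjoint_left]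
          intro y hy
          rcases Finset.mem_insert.mp hy with rfl | hy
          · exact not_mem_rem_of_mem (Finset.mem_insert_self _ _)
          · exact not_mem_rem_of_adj (t := w) (Finset.mem_insert_self _ _) (mem_nb.mp hy).2
        have e3 : insert w (nb G Q w) ∪ rem G S (insert w T) R ⊆ Q := by
          intro y hy
          rcases Finset.mem_union.mp hy with hy | hy
          · rcases Finset.mem_insert.mp hy with rfl | hy
            · exact hwQ
            · exact (mem_nb.mp hy).1
          · rw [hQ, mem_rem]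
            have hy' := mem_rem.mp hy
            exact ⟨hy'.1, fun hh => hy'.2.1 (Finset.mem_insert_of_mem hh), hy'.2.2.1,
              fun t ht => hy'.2.2.2 t (Finset.mem_insert_of_mem ht)⟩
        have e4 := Finset.card_le_card e3
        rw [Finset.card_union_of_disjoint e2, e1] at e4
        have e5 := hlow w hwQ
        omega)
    linarith
  have h3 : 2 * B G x S T R ≤ ∑ w ∈ W, B G x S (insert w T) R := by
    unfold B
    rw [← Finset.sum_mul]
    have h1' : (2 : ℝ) * (cnt G S T R : ℝ) ≤ ∑ w ∈ W, (cnt G S (insert w T) R : ℝ) := by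
      exact_mod_cast h1
    have := pow_nonneg' C S.card
    nlinarith
  have h4 : ∑ w ∈ W, B G x S (insert w T) R ≤ 4 * x ^ (k + 5) := by
    refine (Finset.sum_le_sum h2).trans ?_
    rw [Finset.sum_const, nsmul_eq_mul]
    have : (W.card : ℝ) ≤ 4 := by exact_mod_cast hm
    exact mul_le_mul_of_nonneg_right this (pow_nonneg' C _)
  have h5 : x ^ (k + 5) ≤ x ^ 4 * x ^ k := by
    rw [← pow_add]
    exact pow_le_pow_of_le_one C.x0 C.x1 (by omega)
  linarith

/-- Cap of an exact pair with a rejected nonadjacent neighbour of degree five. -/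
theorem Ctx.pairG (C : Ctx G x S) (hv : v ∈ S) (h5 : dg G S v = 5) (ha : a ∈ nb G S v) {k : ℕ}
    (hk : ¬ G.Adj a b → k ≤ 6 + (out G S v a ∪ out G S v b).card)
    (hc : c ∈ nb G S v) (hca : c ≠ a) (hcb : c ≠ b) (h1 : ¬ G.Adj a c) (h2 : ¬ G.Adj b c)
    (hdc : dg G S c = 5) :
    PE G x S v a b ≤ 2 * x ^ 4 * x ^ k := by
  by_cases hab : G.Adj a b
  · rw [PE_adj hab]
    have := pow_nonneg' C k
    have := pow_nonneg' C 4
    positivity
  · unfold PE
    apply C.trick (u := c) ⟨a, by simp, (mem_nb.mp ha).1⟩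
    · have h1 := pair_removed (b := b) hv h5 ha
      have h2 := hk hab
      omega
    · exact (mem_nb.mp hc).1
    · rw [Finset.mem_sdiff]
      exact ⟨hc, by simp [hca, hcb]⟩
    · intro t ht
      simp only [Finset.mem_insert, Finset.mem_singleton] at ht
      rcases ht with rfl | rfl <;> assumption
    · have h3 := dg_rem (G := G) (S := S) (T := {a, b}) (R := nb G S v \ {a, b}) (Q := {v})
        (w := c) (by
          intro y hy
          rw [Finset.mem_singleton] at hy
          subst hy
          exact mem_nb.mpr ⟨hv, (mem_nb.mp hc).2.symm⟩) (by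
          intro y hy
          rw [Finset.mem_singleton] at hy
          subst hy
          exact not_mem_rem_of_adj (t := a) (by simp) (mem_nb.mp ha).2.symm)
      rw [Finset.card_singleton, hdc] at h3
      unfold H61DIS.dg at h3
      omega

end

end D88
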