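import Pool.Agent.H61DIS.Claw2
import Pool.Agent.D88.Num

/-!
# Minimum degree four (step (I.4) of helper61's proof)
-/

open Finset Classical H61DIS

namespace D88

noncomputable section

variable {V : Type*} {G : SimpleGraph V} {S : Finset V} {x : ℝ} {v a b c d : V}

/-- A neighbour adjacent to the other three. -/
theorem dom (hx0 : 0 ≤ x) (E : N4 G S v a b c d) (hab : G.Adj a b) (hac : G.Adj a c)
    (had : G.Adj a d) :
    h G x S ≤ B G x S {v} ∅ + (1 / 2) * (B G x S {b} ∅ + (B G x S {c} ∅ + B G x S {d} ∅)) := by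
  have h1 : h G x S ≤ B G x S {v} ∅ + (1 / 2) * ∑ u ∈ ({b, c, d} : Finset V),
      B G x S {u} ∅ := by
    apply half_gen hx0
    intro D hD hvD
    have hpq : ∀ p q, p ∈ D → q ∈ D → p ≠ q → p ∈ ({b, c, d} : Finset V) →
        q ∈ ({b, c, d} : Finset V) → 2 ≤ (({b, c, d} : Finset V) ∩ D).card := by
      intro p q hp hq hne hp' hq'
      have : 1 < (({b, c, d} : Finset V) ∩ D).card :=
        Finset.one_lt_card.mpr ⟨p, Finset.mem_inter.mpr ⟨hp', hp⟩, q,
          Finset.mem_inter.mpr ⟨hq', hq⟩, hne⟩
      omega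
    rcases E.pair hD hvD with h1 | h1 | h1 | h1 | h1 | h1
    · exact absurd hab h1.2.2
    · exact absurd hac h1.2.2
    · exact absurd had h1.2.2
    · exact hpq b c h1.1 h1.2.1 E.bc (by simp) (by simp)
    · exact hpq b d h1.1 h1.2.1 E.bd (by simp) (by simp)
    · exact hpq c d h1.1 h1.2.1 E.cd (by simp) (by simp)
  rwa [Finset.sum_insert (by simp [E.bc, E.bd]), Finset.sum_pair E.cd] at h1

/-- The pair `a, c` of nonadjacent common neighbours of `y`. -/
theorem pair_cap (hx0 : 0 ≤ x) (hx1 : x ≤ 1)
    (IH1 : ∀ S', S' ⊂ S → h G x S' ≤ 1) (h4 : ∀ w ∈ S, 4 ≤ dg G S w)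
    (ha : a ∈ S) (hc : c ∈ S) (hac : a ≠ c) (hna : ¬ G.Adj a c) :
    B G x S {a, c} ∅ ≤ x ^ 6 := by
  have h1 : B G x S {a, c} ∅ ≤ 1 * x ^ 6 := by
    apply B_le hx0 hx1 (IH1 _ (rem_ssubset ha (by simp)))
    have h2 : (insert c (insert a (nb G S a))).card = dg G S a + 2 := by
      rw [Finset.card_insert_of_notMem, Finset.card_insert_of_notMem]
      · rfl
      · intro hh; exact G.irrefl (mem_nb.mp hh).2
      · intro hh
        rcases Finset.mem_insert.mp hh with hh | hh
        · exact hac hh.symm
        · exact hna (mem_nb.mp hh).2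
    have h3 := card_blocked (G := G) (S := S) (T := {a, c}) (R := ∅)
      (U := insert c (insert a (nb G S a))) (by
        intro y hy
        rcases Finset.mem_insert.mp hy with rfl | hy
        · exact hc
        rcases Finset.mem_insert.mp hy with rfl | hy
        · exact ha
        · exact (mem_nb.mp hy).1) (by
        intro y hy
        rcases Finset.mem_insert.mp hy with rfl | hy
        · exact not_mem_rem_of_mem (by simp)
        rcases Finset.mem_insert.mp hy with rfl | hy
        · exact not_mem_rem_of_mem (by simp)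
        · exact not_mem_rem_of_adj (t := a) (by simp) (mem_nb.mp hy).2)
    have := h4 a ha
    omega
  linarith

/-- Minimum degree four. -/
theorem four (hx0 : 0 < x) (hx : x ^ 9 = 1 / 6)
    (IH1 : ∀ S', S' ⊂ S → h G x S' ≤ 1)
    (IH2 : ∀ S', S' ⊂ S → (∃ v ∈ S', dg G S' v ≤ 3) → h G x S' ≤ 2 * x ^ 4)
    (h4 : ∀ w ∈ S, 4 ≤ dg G S w) (hv : ∃ v ∈ S, dg G S v = 4) : h G x S ≤ 1 := by
  have hx0' := hx0.le
  have hx1 : x ≤ 1 := by have := num_lt hx0 hx; linarith
  have x5 := x5_le hx0 hx
  have x6 := x6_le hx0 hx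
  have x10 := x10_le hx0 hx
  have x9 : 2 * x ^ 4 * x ^ 5 = 1 / 3 := by
    have : 2 * x ^ 4 * x ^ 5 = 2 * x ^ 9 := by ring
    rw [this, hx]; norm_num
  have x5p : 0 ≤ x ^ 5 := by positivity
  have B5 : ∀ w ∈ S, B G x S {w} ∅ ≤ x ^ 5 := by
    intro w hw
    have := B_single (G := G) hx0' hx1 hw (by norm_num) (IH1 _ (rem_ssubset hw (by simp)))
      (by have := h4 w hw; omega : 5 ≤ dg G S w + 1)
    linarith
  have B6 : ∀ w ∈ S, 5 ≤ dg G S w → B G x S {w} ∅ ≤ x ^ 6 := by
    intro w hw hd
    have := B_single (G := G) hx0' hx1 hw (by norm_num) (IH1 _ (rem_ssubset hw (by simp)))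
      (by omega : 6 ≤ dg G S w + 1)
    linarith
  have BL : ∀ w ∈ S, (∃ y ∈ rem G S {w} ∅, dg G (rem G S {w} ∅) y ≤ 3) →
      B G x S {w} ∅ ≤ 1 / 3 := by
    intro w hw hy
    have := B_single (G := G) hx0' hx1 hw (by positivity)
      (IH2 _ (rem_ssubset hw (by simp)) hy)
      (by have := h4 w hw; omega : 5 ≤ dg G S w + 1)
    rwa [x9] at this
  have BL5 : ∀ w ∈ S, 5 ≤ dg G S w → (∃ y ∈ rem G S {w} ∅, dg G (rem G S {w} ∅) y ≤ 3) →
      B G x S {w} ∅ ≤ 2732 / 10000 := by
    intro w hw hd hy
    have := B_single (G := G) hx0' hx1 hw (by positivity)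
      (IH2 _ (rem_ssubset hw (by simp)) hy) (by omega : 6 ≤ dg G S w + 1)
    linarith
  -- triangles in a neighbourhood
  have tri : ∀ v a b c d, N4 G S v a b c d → G.Adj b c → G.Adj b d → G.Adj c d →
      h G x S ≤ 1 := by
    intro v a b c d E h1 h2 h3
    have := E.clique3 hx0' h1 h2 h3
    have g1 := B5 v E.hv
    have g2 := B5 a E.aS
    linarith
  have star : ∀ v a b c d, N4 G S v a b c d → G.Adj a b → G.Adj a c → G.Adj a d →
      h G x S ≤ 1 := by
    intro v a b c d E h1 h2 h3
    have := dom hx0' E h1 h2 h3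
    have g0 := B5 v E.hv
    have g1 := B5 b E.bS
    have g2 := B5 c E.cS
    have g3 := B5 d E.dS
    linarith
  -- a bad vertex finishes the proof
  have bad : ∀ v ∈ S, dg G S v = 4 →
      (¬ ∃ y ∈ rem G S {v} ∅, dg G (rem G S {v} ∅) y ≤ 3) → h G x S ≤ 1 := by
    intro v hvS hdv hbad
    push Not at hbad
    -- an outer neighbour of a neighbour of `v`
    have outer : ∀ y z, y ∈ S → G.Adj v y → z ∈ S → G.Adj y z → z ≠ v → ¬ G.Adj v z →
        5 ≤ dg G S z := by
      intro y z hy hvy hz hyz hzv hna
      have h1 := hbad z (mem_rem_single hz hzv hna)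
      have h2 := dg_rem_one (G := G) (S := S) (u := v) (w := z) (v := y) hy hyz.symm hvy
      omega
    have lowz : ∀ y z, y ∈ S → G.Adj v y → z ∈ S → G.Adj y z → z ≠ v → ¬ G.Adj v z →
        B G x S {z} ∅ ≤ 2732 / 10000 := by
      intro y z hy hvy hz hyz hzv hna
      apply BL5 z hz (outer y z hy hvy hz hyz hzv hna)
      refine ⟨v, mem_rem_single hvS hzv.symm (fun hh => hna hh.symm), ?_⟩
      have h2 := dg_rem_one (G := G) (S := S) (u := z) (w := v) (v := y) hy hvy hyz.symm
      omega
    by_cases hall : ∀ y ∈ nb G S v, 5 ≤ dg G S y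
    · obtain ⟨a, b, c, d, E⟩ := N4.exists hvS hdv
      have := E.half hx0'
      have g0 := B5 v hvS
      have g1 := B6 a E.aS (hall a E.ha)
      have g2 := B6 b E.bS (hall b E.hb)
      have g3 := B6 c E.cS (hall c E.hc)
      have g4 := B6 d E.dS (hall d E.hd)
      linarith
    · push Not at hall
      obtain ⟨y, hyN, hdy⟩ := hall
      obtain ⟨hyS, hvy⟩ := mem_nb.mp hyN
      have hdy4 : dg G S y = 4 := by have := h4 y hyS; omega
      -- the neighbours of `y`, with `v` first
      have hE : ∃ a b c, N4 G S y v a b c := by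
        obtain ⟨p, q, r, s, E⟩ := N4.exists hyS hdy4
        have hvN : v ∈ nb G S y := mem_nb.mpr ⟨hvS, hvy.symm⟩
        rcases E.all v hvN with rfl | rfl | rfl | rfl
        · exact ⟨q, r, s, E⟩
        · exact ⟨p, r, s, E.s12⟩
        · exact ⟨p, q, s, E.s23.s12⟩
        · exact ⟨p, q, r, E.s34.s23.s12⟩
      obtain ⟨a, b, c, E⟩ := hE
      -- two of the three adjacent to `v`
      have two : ∀ a b c, N4 G S y v a b c → G.Adj v a → G.Adj v b → ¬ G.Adj v c →
          h G x S ≤ 1 := by
        intro a b c E hva hvb hvc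
        by_cases hab : G.Adj a b
        · -- `v, a, b` is a triangle in `N(y)`
          exact tri y c v a b (E.s34.s23.s12) hva hvb hab
        · have gc := lowz y c hyS hvy E.dS E.vd E.ad.symm hvc
          have gy := B5 y hyS
          have gab := pair_cap hx0' hx1 IH1 h4 E.bS E.cS E.bc hab
          have h1 : h G x S ≤ B G x S {y} ∅ + B G x S {c} ∅ + B G x S {a, b} ∅ := by
            apply cover3 hx0'
            intro D hD
            by_cases hyD : y ∈ D
            · left; exact ⟨by simpa using hyD, by simp⟩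
            · right
              rcases E.pair hD hyD with h1 | h1 | h1 | h1 | h1 | h1
              · exact absurd hva h1.2.2
              · exact absurd hvb h1.2.2
              · left; exact ⟨by simpa using h1.2.1, by simp⟩
              · right
                refine ⟨?_, by simp⟩
                intro w hw
                simp only [Finset.mem_insert, Finset.mem_singleton] at hw
                rcases hw with rfl | rfl
                · exact h1.1
                · exact h1.2.1
              · left; exact ⟨by simpa using h1.2.1, by simp⟩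
              · left; exact ⟨by simpa using h1.2.1, by simp⟩
          linarith
      have one : ∀ a b c, N4 G S y v a b c → G.Adj v a → ¬ G.Adj v b → ¬ G.Adj v c →
          h G x S ≤ 1 := by
        intro a b c E hva hvb hvc
        have gb := lowz y b hyS hvy E.cS E.vc E.ac.symm hvb
        have gc := lowz y c hyS hvy E.dS E.vd E.ad.symm hvc
        have gy := B5 y hyS
        have h1 : h G x S ≤ B G x S {y} ∅ + B G x S {b} ∅ + B G x S {c} ∅ := by
          apply cover3 hx0'
          intro D hD
          by_cases hyD : y ∈ D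
          · left; exact ⟨by simpa using hyD, by simp⟩
          · right
            rcases E.pair hD hyD with h1 | h1 | h1 | h1 | h1 | h1
            · exact absurd hva h1.2.2
            · left; exact ⟨by simpa using h1.2.1, by simp⟩
            · right; exact ⟨by simpa using h1.2.1, by simp⟩
            · left; exact ⟨by simpa using h1.2.1, by simp⟩
            · right; exact ⟨by simpa using h1.2.1, by simp⟩
            · left; exact ⟨by simpa using h1.1, by simp⟩
        linarith
      by_cases k1 : G.Adj v a
      · by_cases k2 : G.Adj v b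
        · by_cases k3 : G.Adj v c
          · exact star y v a b c E k1 k2 k3
          · exact two a b c E k1 k2 k3
        · by_cases k3 : G.Adj v c
          · exact two a c b E.s34 k1 k3 k2
          · exact one a b c E k1 k2 k3
      · by_cases k2 : G.Adj v b
        · by_cases k3 : G.Adj v c
          · exact two b c a (E.s23.s34) k2 k3 k1
          · exact one b a c E.s23 k2 k1 k3
        · by_cases k3 : G.Adj v c
          · exact one c a b (E.s34.s23) k3 k1 k2
          · -- no common neighbours
            have ga := lowz y a hyS hvy E.bS E.vb E.ab.symm k1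
            have gb := lowz y b hyS hvy E.cS E.vc E.ac.symm k2
            have gc := lowz y c hyS hvy E.dS E.vd E.ad.symm k3
            have gy := B5 y hyS
            have gv := B5 v hvS
            have := E.half hx0'
            linarith
  -- no bad vertex
  by_cases hbad : ∃ v ∈ S, dg G S v = 4 ∧
      ¬ ∃ y ∈ rem G S {v} ∅, dg G (rem G S {v} ∅) y ≤ 3
  · obtain ⟨v, hvS, hdv, hb⟩ := hbad
    exact bad v hvS hdv hb
  · push Not at hbad
    have B3 : ∀ w ∈ S, B G x S {w} ∅ ≤ 1 / 3 := by
      intro w hw
      by_cases hd : dg G S w = 4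
      · exact BL w hw (hbad w hw hd)
      · have := B6 w hw (by have := h4 w hw; omega)
        linarith
    obtain ⟨v, hvS, hdv⟩ := hv
    obtain ⟨a, b, c, d, E⟩ := N4.exists hvS hdv
    have := E.half hx0'
    have g0 := B3 v hvS
    have g1 := B3 a E.aS
    have g2 := B3 b E.bS
    have g3 := B3 c E.cS
    have g4 := B3 d E.dS
    linarith

end

end D88
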