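import Pool.Agent.D88.LowV
import Pool.Agent.D88.Four

/-!
# Minimum degree five (step (I.5))
-/

open Finset Classical H61DIS

namespace D88

noncomputable section

variable {V : Type*} {G : SimpleGraph V} {S : Finset V} {x : ℝ} {v : V}

/-- A low vertex of degree five with a low neighbour of degree five. -/
theorem lemmaLow (C : Ctx G x S) (hv : v ∈ S) (h5 : dg G S v = 5) (lv : Low G S v) {a : V}
    (ha : a ∈ nb G S v) (da : dg G S a = 5) (la : Low G S a) : False := by
  have hh := C.hhalf hv h5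
  have hbv := C.b6L hv lv
  have hba := C.b6L (mS ha) la
  -- all neighbours have degree five
  have L1 : ∀ u ∈ nb G S v, dg G S u = 5 := by
    intro u hu
    by_contra h1
    have h2 := C.h5 u (mS hu)
    have hua : a ≠ u := by rintro rfl; exact h1 da
    have h3 := C.sg2 hv h5 ha hu hua
    have h4 := C.b7 (mS hu) (by omega)
    linarith
  have L2 : ∀ p q r, p ∈ nb G S v → q ∈ nb G S v → r ∈ nb G S v → p ≠ q → p ≠ r → q ≠ r →
      Low G S p → Low G S q → ¬ Low G S r := by
    intro p q r hp hq hr hpq hpr hqr lp lq lr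
    have h1 := C.sg3 hv h5 hp hq hr hpq hpr hqr
    have h2 := C.b6L (mS hp) lp
    have h3 := C.b6L (mS hq) lq
    have h4 := C.b6L (mS hr) lr
    linarith
  have key : ∀ p q, p ∈ nb G S v → q ∈ nb G S v → p ≠ q → ¬ G.Adj p q →
      2 ≤ (cn G S p q).card → Low G S p := by
    intro p q hp hq hpq hna h2
    have := L1 q hq
    exact low_of (mS hq) hpq.symm hna (by omega)
  by_cases hth : ∃ p q, p ∈ nb G S v ∧ q ∈ nb G S v ∧ p ≠ q ∧ ¬ G.Adj p q ∧
      2 ≤ (cn G S p q).card
  · obtain ⟨p, q, hp, hq, hpq, hna, h2⟩ := hth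
    have lp := key p q hp hq hpq hna h2
    have lq : Low G S q := key q p hq hp hpq.symm (fun h => hna h.symm)
      (by rw [cn_comm]; exact h2)
    have nl : ∀ r ∈ nb G S v, r ≠ p → r ≠ q → ¬ Low G S r := fun r hr h1 h2 =>
      L2 p q r hp hq hr hpq h1.symm h2.symm lp lq
    have H : Th G x S v p q := by
      refine ⟨hbv, C.b6L (mS hp) lp, C.b6L (mS hq) lq, L1 p hp, L1 q hq, ?_⟩
      intro a b ha hb hab k1 k2 hnab
      by_cases l1 : Low G S a
      · have e1 : a = p ∨ a = q := by
          by_contra hh2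
          push Not at hh2
          exact nl a ha hh2.1 hh2.2 l1
        have l2 : ¬ Low G S b := by
          apply nl b hb
          · rintro rfl
            rcases e1 with rfl | rfl
            · exact hab rfl
            · rcases k2 with k2 | k2
              · exact k2 rfl
              · exact k2 rfl
          · rintro rfl
            rcases e1 with rfl | rfl
            · rcases k1 with k1 | k1
              · exact k1 rfl
              · exact k1 rfl
            · exact hab rfl
        have := star C.h5 hv hb ha hab (fun h => hnab h.symm) l2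
        rw [Finset.inter_comm, Finset.union_comm] at this
        omega
      · exact star C.h5 hv ha hb hab.symm hnab l1
    by_cases hw : ∃ w, w ∈ nb G S v ∧ G.Adj w p ∧ G.Adj w q
    · obtain ⟨w, hw, hwp, hwq⟩ := hw
      obtain ⟨s, t, E⟩ := pick3 hv h5 hp hw hq hwp.ne.symm hpq hwq.ne
      have N1 : ∀ s, s ∈ nb G S v → s ≠ p → s ≠ w → s ≠ q → ¬ G.Adj p s ∧ ¬ G.Adj w s ∧
          ¬ G.Adj q s := by
        intro s hs' hsp hsw hsq
        have ls := nl s hs' hsp hsq
        refine ⟨?_, ?_, ?_⟩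
        · intro hps
          have h1 : ¬ G.Adj s w := fun h => tri_free C hv h5 hp hs' hw hps hwp.symm h
          exact ls (key s w hs' hw hsw h1 (cn_two hv hs' hw hp hps hwp.symm))
        · intro hws
          have h1 : ¬ G.Adj s q := fun h => tri_free C hv h5 hw hs' hq hws hwq h
          exact ls (key s q hs' hq hsq h1 (cn_two hv hs' hq hw hws hwq))
        · intro hqs
          have h1 : ¬ G.Adj s w := fun h => tri_free C hv h5 hq hs' hw hqs hwq.symm h
          exact ls (key s w hs' hw hsw h1 (cn_two hv hs' hw hq hqs hwq.symm))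
      have ns := N1 s E.hd E.ad.symm E.bd.symm E.cd.symm
      have nt := N1 t E.he E.ae.symm E.be.symm E.ce.symm
      by_cases hst : G.Adj s t
      · exact leafT2 C H E hwp.symm hna ns.1 nt.1 hwq ns.2.1 nt.2.1 ns.2.2 nt.2.2 hst
      · exact leafT1 C H E hwp.symm hna ns.1 nt.1 hwq ns.2.1 nt.2.1 ns.2.2 nt.2.2 hst
    · -- no vertex has two neighbours
      have hnp : NP G S v := by
        intro w r r' hw' hr hr' hrr g1 g2
        have hna' : ¬ G.Adj r r' := fun h => tri_free C hv h5 hw' hr hr' g1 g2 h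
        have c2 := cn_two hv hr hr' hw' g1 g2
        have lr := key r r' hr hr' hrr hna' c2
        have lr' := key r' r hr' hr hrr.symm (fun h => hna' h.symm) (by rw [cn_comm]; exact c2)
        have e1 : r = p ∨ r = q := by
          by_contra hh2
          push Not at hh2
          exact nl r hr hh2.1 hh2.2 lr
        have e2 : r' = p ∨ r' = q := by
          by_contra hh2
          push Not at hh2
          exact nl r' hr' hh2.1 hh2.2 lr'
        rcases e1 with rfl | rfl <;> rcases e2 with rfl | rfl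
        · exact hrr rfl
        · exact hw ⟨w, hw', g1, g2⟩
        · exact hw ⟨w, hw', g2, g1⟩
        · exact hrr rfl
      -- `p` has a neighbour `c`, `q` has none or has one
      have main : ∀ p q, p ∈ nb G S v → q ∈ nb G S v → p ≠ q → ¬ G.Adj p q → Th G x S v p q →
          ∀ c, c ∈ nb G S v → G.Adj p c → False := by
        intro p q hp hq hpq hna H c hc hpc
        have hcq : c ≠ q := by rintro rfl; exact hna hpc
        obtain ⟨d, e, E⟩ := pick3 hv h5 hp hc hq hpc.ne hpq hcq
        have a1 : ¬ G.Adj p d := hnp p c d hp hc E.hd E.bd hpc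
        have a2 : ¬ G.Adj p e := hnp p c e hp hc E.he E.be hpc
        have a3 : ¬ G.Adj c q := hnp c p q hc hp hq hpq hpc.symm
        have a4 : ¬ G.Adj c d := hnp c p d hc hp E.hd E.ad hpc.symm
        have a5 : ¬ G.Adj c e := hnp c p e hc hp E.he E.ae hpc.symm
        by_cases b1 : G.Adj q d
        · have b2 : ¬ G.Adj q e := hnp q d e hq E.hd E.he E.de b1
          have b3 : ¬ G.Adj d e := hnp d q e E.hd hq E.he E.ce b1.symm
          exact leafT3 C H E hpc hna a1 a2 a3 a4 a5 b1 b2 b3 (L1 e E.he)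
        by_cases b2 : G.Adj q e
        · have b3 : ¬ G.Adj e d := hnp e q d E.he hq E.hd E.cd b2.symm
          exact leafT3 C H E.s45 hpc hna a2 a1 a3 a5 a4 b2 b1 b3 (L1 d E.hd)
        by_cases b3 : G.Adj d e
        · exact leafT4 C H (E.s34.s45) hpc a1 a2 hna a4 a5 a3 b3 (fun h => b1 h.symm)
            (fun h => b2 h.symm)
        · exact leafT5 C H E hpc hna a1 a2 a3 a4 a5 b1 b2 b3
      by_cases hpn : ∃ c, c ∈ nb G S v ∧ G.Adj p c
      · obtain ⟨c, hc, hpc⟩ := hpn
        exact main p q hp hq hpq hna H c hc hpc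
      by_cases hqn : ∃ c, c ∈ nb G S v ∧ G.Adj q c
      · obtain ⟨c, hc, hqc⟩ := hqn
        exact main q p hq hp hpq.symm (fun h => hna h.symm) H.symm c hc hqc
      -- both isolated
      obtain ⟨c, d, e, E⟩ := pick2 hv h5 hp hq hpq
      have p1 : ¬ G.Adj p c := fun h => hpn ⟨c, E.hc, h⟩
      have p2 : ¬ G.Adj p d := fun h => hpn ⟨d, E.hd, h⟩
      have p3 : ¬ G.Adj p e := fun h => hpn ⟨e, E.he, h⟩
      have q1 : ¬ G.Adj q c := fun h => hqn ⟨c, E.hc, h⟩
      have q2 : ¬ G.Adj q d := fun h => hqn ⟨d, E.hd, h⟩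
      have q3 : ¬ G.Adj q e := fun h => hqn ⟨e, E.he, h⟩
      by_cases hcd : G.Adj c d
      · have hce : ¬ G.Adj c e := hnp c d e E.hc E.hd E.he E.de hcd
        have hde : ¬ G.Adj d e := hnp d c e E.hd E.hc E.he E.ce hcd.symm
        exact leafT6 C H E hna p1 p2 p3 q1 q2 q3 hcd hce hde
      by_cases hce : G.Adj c e
      · have hde : ¬ G.Adj e d := hnp e c d E.he E.hc E.hd E.cd hce.symm
        exact leafT6 C H E.s45 hna p1 p3 p2 q1 q3 q2 hce hcd hde
      by_cases hde : G.Adj d e
      · exact leafT6 C H E.s34.s45 hna p2 p3 p1 q2 q3 q1 hde (fun h => hcd h.symm)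
          (fun h => hce h.symm)
      · exact leafT0 C H E hna p1 p2 p3 q1 q2 q3 hcd hce hde
  · -- no thick pair
    have hth' : ∀ p q, p ∈ nb G S v → q ∈ nb G S v → p ≠ q → ¬ G.Adj p q →
        (cn G S p q).card ≤ 1 := by
      intro p q hp hq hpq hna
      by_contra hh2
      exact hth ⟨p, q, hp, hq, hpq, hna, by omega⟩
    have hs : Star G S v := by
      intro a b ha hb hab hna
      have h1 := hth' a b ha hb hab hna
      have h2 := uni_card hv ha hb
      have h3 := L1 a ha
      have h4 := L1 b hb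
      omega
    apply matching C hv h5 hs
    intro w p q hw hp hq hpq hwp hwq
    have hna : ¬ G.Adj p q := fun h => tri_free C hv h5 hw hp hq hwp hwq h
    have h1 := hth' p q hp hq hpq hna
    have h2 := cn_two hv hp hq hw hwp hwq
    omega

/-- Minimum degree five. -/
theorem five (hx0 : 0 < x) (hx : x ^ 9 = 1 / 6)
    (IH1 : ∀ S', S' ⊂ S → h G x S' ≤ 1)
    (IH2 : ∀ S', S' ⊂ S → (∃ v ∈ S', dg G S' v ≤ 3) → h G x S' ≤ 2 * x ^ 4)
    (h5 : ∀ w ∈ S, 5 ≤ dg G S w) (hv : ∃ v ∈ S, dg G S v = 5) : h G x S ≤ 1 := by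
  by_contra hh
  push Not at hh
  have C : Ctx G x S := ⟨hx0, hx, IH1, IH2, h5, hh⟩
  by_cases h1 : ∃ u ∈ S, dg G S u = 5 ∧ Low G S u
  · obtain ⟨u, hu, du, lu⟩ := h1
    by_cases h2 : ∃ a ∈ nb G S u, dg G S a = 5 ∧ Low G S a
    · obtain ⟨a, ha, da, la⟩ := h2
      exact lemmaLow C hu du lu ha da la
    · push Not at h2
      exact lemmaM C hu du h2
  · push Not at h1
    obtain ⟨v, hv, dv⟩ := hv
    exact lemmaM C hv dv (fun u hu du => h1 u (mS hu) du)

/-- Minimum degree at least six. -/
theorem six (hx0 : 0 < x) (hx : x ^ 9 = 1 / 6)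
    (IH1 : ∀ S', S' ⊂ S → h G x S' ≤ 1) (h6 : ∀ w ∈ S, 6 ≤ dg G S w) (hv : S.Nonempty) :
    h G x S ≤ 1 := by
  obtain ⟨v, hv, hmin⟩ := Finset.exists_min_image S (fun w => dg G S w) hv
  have h1 := big (G := G) hx0.le (by have := num_lt2 hx; linarith) IH1 hv hmin
  have h2 := big_num hx0.le (by have := num_lt2 hx; linarith)
    (by have := (num hx0 hx).p7; linarith) (dg G S v) (h6 v hv)
  linarith

/-- (I) for all sets without a vertex of degree at most three. -/
theorem high (hx0 : 0 < x) (hx : x ^ 9 = 1 / 6)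
    (IH1 : ∀ S', S' ⊂ S → h G x S' ≤ 1)
    (IH2 : ∀ S', S' ⊂ S → (∃ v ∈ S', dg G S' v ≤ 3) → h G x S' ≤ 2 * x ^ 4)
    (h4 : ∀ w ∈ S, 4 ≤ dg G S w) : h G x S ≤ 1 := by
  by_cases h1 : ∃ v ∈ S, dg G S v = 4
  · exact four hx0 hx IH1 IH2 h4 h1
  push Not at h1
  have h5 : ∀ w ∈ S, 5 ≤ dg G S w := by
    intro w hw
    have := h4 w hw
    have := h1 w hw
    omega
  by_cases h2 : ∃ v ∈ S, dg G S v = 5
  · exact five hx0 hx IH1 IH2 h5 h2
  push Not at h2
  have h6 : ∀ w ∈ S, 6 ≤ dg G S w := by
    intro w hw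
    have := h5 w hw
    have := h2 w hw
    omega
  by_cases hne : S.Nonempty
  · exact six hx0 hx IH1 h6 hne
  · rw [Finset.not_nonempty_iff_eq_empty] at hne
    rw [hne]
    exact h_empty

end

end D88
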