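import Pool.Agent.D88.Caps

/-!
# The leaves of the case analysis without a thick pair
-/

open Finset Classical H61DIS

namespace D88

noncomputable section

variable {V : Type*} {G : SimpleGraph V} {S : Finset V} {x : ℝ} {v a b c d e : V}

theorem inn_eq (a : V) (ha : a ∈ nb G S v) :
    inn G S v a = (nb G S v).filter (fun w => G.Adj a w) := by
  ext w
  rw [mem_inn, Finset.mem_filter, mem_nb]
  tauto

theorem N5.ta (E : N5 G S v a b c d e) : (inn G S v a).card = (if G.Adj a b then 1 else 0) +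
    ((if G.Adj a c then 1 else 0) + ((if G.Adj a d then 1 else 0) +
      (if G.Adj a e then 1 else 0))) := by
  rw [inn_eq a E.ha, Finset.card_filter, E.sum]
  simp

theorem N5.tb (E : N5 G S v a b c d e) : (inn G S v b).card = (if G.Adj a b then 1 else 0) +
    ((if G.Adj b c then 1 else 0) + ((if G.Adj b d then 1 else 0) +
      (if G.Adj b e then 1 else 0))) := by
  rw [inn_eq b E.hb, Finset.card_filter, E.sum]
  simp [G.adj_comm b a]

theorem N5.tc (E : N5 G S v a b c d e) : (inn G S v c).card = (if G.Adj a c then 1 else 0) +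
    ((if G.Adj b c then 1 else 0) + ((if G.Adj c d then 1 else 0) +
      (if G.Adj c e then 1 else 0))) := by
  rw [inn_eq c E.hc, Finset.card_filter, E.sum]
  simp [G.adj_comm c a, G.adj_comm c b]

theorem N5.td (E : N5 G S v a b c d e) : (inn G S v d).card = (if G.Adj a d then 1 else 0) +
    ((if G.Adj b d then 1 else 0) + ((if G.Adj c d then 1 else 0) +
      (if G.Adj d e then 1 else 0))) := by
  rw [inn_eq d E.hd, Finset.card_filter, E.sum]
  simp [G.adj_comm d a, G.adj_comm d b, G.adj_comm d c]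

theorem N5.te (E : N5 G S v a b c d e) : (inn G S v e).card = (if G.Adj a e then 1 else 0) +
    ((if G.Adj b e then 1 else 0) + ((if G.Adj c e then 1 else 0) +
      (if G.Adj d e then 1 else 0))) := by
  rw [inn_eq e E.he, Finset.card_filter, E.sum]
  simp [G.adj_comm e a, G.adj_comm e b, G.adj_comm e c, G.adj_comm e d]

/-- Star bounds for one pair. -/
def St (G : SimpleGraph V) (S : Finset V) (v a b : V) : Prop :=
  ¬ G.Adj a b → 8 + (inn G S v a ∩ inn G S v b).card ≤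
      (out G S v a ∪ out G S v b).card + (inn G S v a).card + (inn G S v b).card

theorem St.symm (hs : St G S v a b) : St G S v b a := by
  intro h
  have := hs (fun h' => h h'.symm)
  rw [Finset.inter_comm, Finset.union_comm] at this
  omega

/-- Star bounds for all pairs. -/
def Star (G : SimpleGraph V) (S : Finset V) (v : V) : Prop :=
  ∀ a b, a ∈ nb G S v → b ∈ nb G S v → a ≠ b → St G S v a b

/-- Cap from the star bound. -/
theorem Ctx.ps (C : Ctx G x S) (hv : v ∈ S) (h5 : dg G S v = 5) (ha : a ∈ nb G S v)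
    (hs : St G S v a b) {k : ℕ} (hk : k + (inn G S v a).card + (inn G S v b).card ≤ 14) :
    PE G x S v a b ≤ x ^ k := by
  apply C.pair hv h5 ha
  intro hab
  have := hs hab
  omega

/-- Cap from the star bound with the third order trick. -/
theorem Ctx.psG (C : Ctx G x S) (hv : v ∈ S) (h5 : dg G S v = 5) (ha : a ∈ nb G S v)
    (hs : St G S v a b) {k : ℕ} (hk : k + (inn G S v a).card + (inn G S v b).card ≤ 14)
    (hc : c ∈ nb G S v) (hca : c ≠ a) (hcb : c ≠ b) (h1 : ¬ G.Adj a c) (h2 : ¬ G.Adj b c)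
    (hdc : dg G S c = 5) :
    PE G x S v a b ≤ 2 * x ^ 4 * x ^ k := by
  apply C.pairG hv h5 ha _ hc hca hcb h1 h2 hdc
  intro hab
  have := hs hab
  omega

theorem Ctx.b6 (C : Ctx G x S) {u : V} (hu : u ∈ S) : B G x S {u} ∅ ≤ 302857 / 1000000 :=
  (C.single hu (k := 6) (by have := C.h5 u hu; omega)).trans C.num.p6

theorem Ctx.b7 (C : Ctx G x S) {u : V} (hu : u ∈ S) (hd : 6 ≤ dg G S u) :
    B G x S {u} ∅ ≤ 248186 / 1000000 :=
  (C.single hu (k := 7) (by omega)).trans C.num.p7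

theorem Ctx.b8 (C : Ctx G x S) {u : V} (hu : u ∈ S) (hd : 7 ≤ dg G S u) :
    B G x S {u} ∅ ≤ 203384 / 1000000 :=
  (C.single hu (k := 8) (by omega)).trans C.num.p8

theorem Ctx.b9 (C : Ctx G x S) {u : V} (hu : u ∈ S) (hd : 8 ≤ dg G S u) :
    B G x S {u} ∅ ≤ 166670 / 1000000 :=
  (C.single hu (k := 9) (by omega)).trans C.num.p9

theorem Ctx.b6L (C : Ctx G x S) {u : V} (hu : u ∈ S) (hl : Low G S u) :
    B G x S {u} ∅ ≤ 273164 / 1000000 :=
  (C.singleL hu hl (k := 6) (by have := C.h5 u hu; omega)).trans C.num.g6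

theorem Ctx.b7L (C : Ctx G x S) {u : V} (hu : u ∈ S) (hl : Low G S u) (hd : 6 ≤ dg G S u) :
    B G x S {u} ∅ ≤ 223853 / 1000000 :=
  (C.singleL hu hl (k := 7) (by omega)).trans C.num.g7

/-- Sum of the five single caps. -/
def Sg (G : SimpleGraph V) (x : ℝ) (S : Finset V) (v : V) : ℝ := ∑ w ∈ nb G S v, B G x S {w} ∅

theorem N5.Sg_eq (E : N5 G S v a b c d e) : Sg G x S v = B G x S {a} ∅ + B G x S {b} ∅ +
    B G x S {c} ∅ + B G x S {d} ∅ + B G x S {e} ∅ := by
  unfold Sg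
  rw [E.sum]; ring

theorem mS {w : V} (hw : w ∈ nb G S v) : w ∈ S := (mem_nb.mp hw).1

theorem Ctx.sg1 (C : Ctx G x S) (hv : v ∈ S) (h5 : dg G S v = 5) (ha : a ∈ nb G S v) :
    Sg G x S v ≤ B G x S {a} ∅ + 4 * (302857 / 1000000) := by
  obtain ⟨b, c, d, e, E⟩ := pick1 hv h5 ha
  rw [E.Sg_eq]
  have := C.b6 (mS E.hb)
  have := C.b6 (mS E.hc)
  have := C.b6 (mS E.hd)
  have := C.b6 (mS E.he)
  linarith

theorem Ctx.sg2 (C : Ctx G x S) (hv : v ∈ S) (h5 : dg G S v = 5) (ha : a ∈ nb G S v)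
    (hb : b ∈ nb G S v) (hab : a ≠ b) :
    Sg G x S v ≤ B G x S {a} ∅ + B G x S {b} ∅ + 3 * (302857 / 1000000) := by
  obtain ⟨c, d, e, E⟩ := pick2 hv h5 ha hb hab
  rw [E.Sg_eq]
  have := C.b6 (mS E.hc)
  have := C.b6 (mS E.hd)
  have := C.b6 (mS E.he)
  linarith

theorem Ctx.sg3 (C : Ctx G x S) (hv : v ∈ S) (h5 : dg G S v = 5) (ha : a ∈ nb G S v)
    (hb : b ∈ nb G S v) (hc : c ∈ nb G S v) (hab : a ≠ b) (hac : a ≠ c) (hbc : b ≠ c) :
    Sg G x S v ≤ B G x S {a} ∅ + B G x S {b} ∅ + B G x S {c} ∅ + 2 * (302857 / 1000000) := by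
  obtain ⟨d, e, E⟩ := pick3 hv h5 ha hb hc hab hac hbc
  rw [E.Sg_eq]
  have := C.b6 (mS E.hd)
  have := C.b6 (mS E.he)
  linarith

theorem Ctx.sgAll (C : Ctx G x S) (hv : v ∈ S) (h5 : dg G S v = 5) :
    Sg G x S v ≤ 5 * (302857 / 1000000) := by
  obtain ⟨a, b, c, d, e, E⟩ := pick0 hv h5
  have := C.sg1 hv h5 E.ha
  have := C.b6 (mS E.ha)
  linarith

theorem Ctx.hhalf (C : Ctx G x S) (hv : v ∈ S) (h5 : dg G S v = 5) :
    2 < 2 * B G x S {v} ∅ + Sg G x S v := by
  obtain ⟨a, b, c, d, e, E⟩ := pick0 hv h5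
  have h1 := E.half C.x0
  rw [E.Sg_eq]
  have := C.big
  linarith

theorem Ctx.hthree (C : Ctx G x S) (E : N5 G S v a b c d e) :
    3 < 3 * B G x S {v} ∅ + Sg G x S v + (PE G x S v a b + PE G x S v a c + PE G x S v a d +
      PE G x S v a e + PE G x S v b c + PE G x S v b d + PE G x S v b e + PE G x S v c d +
      PE G x S v c e + PE G x S v d e) := by
  have h1 := E.three C.x0
  rw [E.Sg_eq]
  have := C.big
  linarith

/-- No edge in the neighbourhood, all degrees five. -/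
theorem leaf0a (C : Ctx G x S) (E : N5 G S v a b c d e) (hs : Star G S v)
    (hab : ¬ G.Adj a b) (hac : ¬ G.Adj a c) (had : ¬ G.Adj a d) (hae : ¬ G.Adj a e)
    (hbc : ¬ G.Adj b c) (hbd : ¬ G.Adj b d) (hbe : ¬ G.Adj b e) (hcd : ¬ G.Adj c d)
    (hce : ¬ G.Adj c e) (hde : ¬ G.Adj d e)
    (da : dg G S a = 5) (db : dg G S b = 5) (dc : dg G S c = 5) : False := by
  have ta := E.ta
  have tb := E.tb
  have tc := E.tc
  have td := E.td
  have te := E.te
  simp only [hab, hac, had, hae, hbc, hbd, hbe, hcd, hce, hde, if_false] at ta tb tc td te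
  have N := C.num
  have q := fun (p q : V) (hp : p ∈ nb G S v) (hq : q ∈ nb G S v) (hpq : p ≠ q)
      (tp : (inn G S v p).card = 0) (tq : (inn G S v q).card = 0) (r : V)
      (hr : r ∈ nb G S v) (hrp : r ≠ p) (hrq : r ≠ q) (h1 : ¬ G.Adj p r) (h2 : ¬ G.Adj q r)
      (hdr : dg G S r = 5) =>
    (C.psG E.hv E.dg hp (hs p q hp hq hpq) (k := 14) (by omega) hr hrp hrq h1 h2 hdr).trans
      N.g14
  have hab' : ¬ G.Adj b a := fun h => hab h.symm
  have hac' : ¬ G.Adj c a := fun h => hac h.symm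
  have had' : ¬ G.Adj d a := fun h => had h.symm
  have hae' : ¬ G.Adj e a := fun h => hae h.symm
  have hbc' : ¬ G.Adj c b := fun h => hbc h.symm
  have hbd' : ¬ G.Adj d b := fun h => hbd h.symm
  have hbe' : ¬ G.Adj e b := fun h => hbe h.symm
  have hcd' : ¬ G.Adj d c := fun h => hcd h.symm
  have hce' : ¬ G.Adj e c := fun h => hce h.symm
  have p1 := q a b E.ha E.hb E.ab ta tb c E.hc E.ac.symm E.bc.symm hac hbc dc
  have p2 := q a c E.ha E.hc E.ac ta tc b E.hb E.ab.symm E.bc hab hbc' db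
  have p3 := q a d E.ha E.hd E.ad ta td b E.hb E.ab.symm E.bd hab hbd' db
  have p4 := q a e E.ha E.he E.ae ta te b E.hb E.ab.symm E.be hab hbe' db
  have p5 := q b c E.hb E.hc E.bc tb tc a E.ha E.ab E.ac hab' hac' da
  have p6 := q b d E.hb E.hd E.bd tb td a E.ha E.ab E.ad hab' had' da
  have p7 := q b e E.hb E.he E.be tb te a E.ha E.ab E.ae hab' hae' da
  have p8 := q c d E.hc E.hd E.cd tc td a E.ha E.ac E.ad hac' had' da
  have p9 := q c e E.hc E.he E.ce tc te a E.ha E.ac E.ae hac' hae' da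
  have p10 := q d e E.hd E.he E.de td te a E.ha E.ad E.ae had' hae' da
  have h3 := C.hthree E
  have hb := C.b6 E.hv
  have hS := C.sgAll E.hv E.dg
  linarith

/-- No edge in the neighbourhood, a big vertex. -/
theorem leaf0b (C : Ctx G x S) (E : N5 G S v a b c d e) (hs : Star G S v)
    (hab : ¬ G.Adj a b) (hac : ¬ G.Adj a c) (had : ¬ G.Adj a d) (hae : ¬ G.Adj a e)
    (hbc : ¬ G.Adj b c) (hbd : ¬ G.Adj b d) (hbe : ¬ G.Adj b e) (hcd : ¬ G.Adj c d)
    (hce : ¬ G.Adj c e) (hde : ¬ G.Adj d e)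
    (hS : Sg G x S v ≤ 4 * (302857 / 1000000) + 248186 / 1000000) : False := by
  have ta := E.ta
  have tb := E.tb
  have tc := E.tc
  have td := E.td
  have te := E.te
  simp only [hab, hac, had, hae, hbc, hbd, hbe, hcd, hce, hde, if_false] at ta tb tc td te
  have N := C.num
  have q := fun (p q : V) (hp : p ∈ nb G S v) (hq : q ∈ nb G S v) (hpq : p ≠ q)
      (tp : (inn G S v p).card = 0) (tq : (inn G S v q).card = 0) =>
    (C.ps E.hv E.dg hp (hs p q hp hq hpq) (k := 14) (by omega)).trans N.p14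
  have p1 := q a b E.ha E.hb E.ab ta tb
  have p2 := q a c E.ha E.hc E.ac ta tc
  have p3 := q a d E.ha E.hd E.ad ta td
  have p4 := q a e E.ha E.he E.ae ta te
  have p5 := q b c E.hb E.hc E.bc tb tc
  have p6 := q b d E.hb E.hd E.bd tb td
  have p7 := q b e E.hb E.he E.be tb te
  have p8 := q c d E.hc E.hd E.cd tc td
  have p9 := q c e E.hc E.he E.ce tc te
  have p10 := q d e E.hd E.he E.de td te
  have h3 := C.hthree E
  have hb := C.b6 E.hv
  linarith

/-- One edge `a b`, at most one big vertex. -/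
theorem leaf1a (C : Ctx G x S) (E : N5 G S v a b c d e) (hs : Star G S v)
    (hab : G.Adj a b) (hac : ¬ G.Adj a c) (had : ¬ G.Adj a d) (hae : ¬ G.Adj a e)
    (hbc : ¬ G.Adj b c) (hbd : ¬ G.Adj b d) (hbe : ¬ G.Adj b e) (hcd : ¬ G.Adj c d)
    (hce : ¬ G.Adj c e) (hde : ¬ G.Adj d e)
    (h1 : dg G S a = 5 ∨ dg G S b = 5) (h2 : dg G S c = 5 ∨ dg G S d = 5)
    (h3 : dg G S c = 5 ∨ dg G S e = 5) (h4 : dg G S d = 5 ∨ dg G S e = 5) : False := by
  have ta := E.ta
  have tb := E.tb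
  have tc := E.tc
  have td := E.td
  have te := E.te
  simp only [hab, hac, had, hae, hbc, hbd, hbe, hcd, hce, hde, if_false, if_true]
    at ta tb tc td te
  have N := C.num
  have hcd' : ¬ G.Adj d c := fun h => hcd h.symm
  have hce' : ¬ G.Adj e c := fun h => hce h.symm
  have hde' : ¬ G.Adj e d := fun h => hde h.symm
  have hac' : ¬ G.Adj c a := fun h => hac h.symm
  have had' : ¬ G.Adj d a := fun h => had h.symm
  have hae' : ¬ G.Adj e a := fun h => hae h.symm
  have hbc' : ¬ G.Adj c b := fun h => hbc h.symm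
  have hbd' : ¬ G.Adj d b := fun h => hbd h.symm
  have hbe' : ¬ G.Adj e b := fun h => hbe h.symm
  have q := fun (p q : V) (hp : p ∈ nb G S v) (hq : q ∈ nb G S v) (hpq : p ≠ q)
      (tp : (inn G S v p).card = 1) (tq : (inn G S v q).card = 0) (r : V)
      (hr : r ∈ nb G S v) (hrp : r ≠ p) (hrq : r ≠ q) (h1 : ¬ G.Adj p r) (h2 : ¬ G.Adj q r)
      (hdr : dg G S r = 5) =>
    (C.psG E.hv E.dg hp (hs p q hp hq hpq) (k := 13) (by omega) hr hrp hrq h1 h2 hdr).trans
      N.g13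
  have q' := fun (p q : V) (hp : p ∈ nb G S v) (hq : q ∈ nb G S v) (hpq : p ≠ q)
      (tp : (inn G S v p).card = 0) (tq : (inn G S v q).card = 0) (r : V)
      (hr : r ∈ nb G S v) (hrp : r ≠ p) (hrq : r ≠ q) (h1 : ¬ G.Adj p r) (h2 : ¬ G.Adj q r)
      (hdr : dg G S r = 5) =>
    (C.psG E.hv E.dg hp (hs p q hp hq hpq) (k := 14) (by omega) hr hrp hrq h1 h2 hdr).trans
      N.g14
  have p0 : PE G x S v a b = 0 := PE_adj hab
  have p2 : PE G x S v a c ≤ 67796 / 1000000 := by
    rcases h4 with hh | hh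
    · exact q a c E.ha E.hc E.ac ta tc d E.hd E.ad.symm E.cd.symm had hcd hh
    · exact q a c E.ha E.hc E.ac ta tc e E.he E.ae.symm E.ce.symm hae hce hh
  have p3 : PE G x S v a d ≤ 67796 / 1000000 := by
    rcases h3 with hh | hh
    · exact q a d E.ha E.hd E.ad ta td c E.hc E.ac.symm E.cd hac hcd' hh
    · exact q a d E.ha E.hd E.ad ta td e E.he E.ae.symm E.de.symm hae hde hh
  have p4 : PE G x S v a e ≤ 67796 / 1000000 := by
    rcases h2 with hh | hh
    · exact q a e E.ha E.he E.ae ta te c E.hc E.ac.symm E.ce hac hce' hh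
    · exact q a e E.ha E.he E.ae ta te d E.hd E.ad.symm E.de had hde' hh
  have p5 : PE G x S v b c ≤ 67796 / 1000000 := by
    rcases h4 with hh | hh
    · exact q b c E.hb E.hc E.bc tb tc d E.hd E.bd.symm E.cd.symm hbd hcd hh
    · exact q b c E.hb E.hc E.bc tb tc e E.he E.be.symm E.ce.symm hbe hce hh
  have p6 : PE G x S v b d ≤ 67796 / 1000000 := by
    rcases h3 with hh | hh
    · exact q b d E.hb E.hd E.bd tb td c E.hc E.bc.symm E.cd hbc hcd' hh
    · exact q b d E.hb E.hd E.bd tb td e E.he E.be.symm E.de.symm hbe hde hh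
  have p7 : PE G x S v b e ≤ 67796 / 1000000 := by
    rcases h2 with hh | hh
    · exact q b e E.hb E.he E.be tb te c E.hc E.bc.symm E.ce hbc hce' hh
    · exact q b e E.hb E.he E.be tb te d E.hd E.bd.symm E.de hbd hde' hh
  have p8 : PE G x S v c d ≤ 55558 / 1000000 := by
    rcases h1 with hh | hh
    · exact q' c d E.hc E.hd E.cd tc td a E.ha E.ac E.ad hac' had' hh
    · exact q' c d E.hc E.hd E.cd tc td b E.hb E.bc E.bd hbc' hbd' hh
  have p9 : PE G x S v c e ≤ 55558 / 1000000 := by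
    rcases h1 with hh | hh
    · exact q' c e E.hc E.he E.ce tc te a E.ha E.ac E.ae hac' hae' hh
    · exact q' c e E.hc E.he E.ce tc te b E.hb E.bc E.be hbc' hbe' hh
  have p10 : PE G x S v d e ≤ 55558 / 1000000 := by
    rcases h1 with hh | hh
    · exact q' d e E.hd E.he E.de td te a E.ha E.ad E.ae had' hae' hh
    · exact q' d e E.hd E.he E.de td te b E.hb E.bd E.be hbd' hbe' hh
  have h3 := C.hthree E
  have hb := C.b6 E.hv
  have hS := C.sgAll E.hv E.dg
  linarith

/-- One edge `a b`, two big vertices. -/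
theorem leaf1b (C : Ctx G x S) (E : N5 G S v a b c d e) (hs : Star G S v)
    (hab : G.Adj a b) (hac : ¬ G.Adj a c) (had : ¬ G.Adj a d) (hae : ¬ G.Adj a e)
    (hbc : ¬ G.Adj b c) (hbd : ¬ G.Adj b d) (hbe : ¬ G.Adj b e) (hcd : ¬ G.Adj c d)
    (hce : ¬ G.Adj c e) (hde : ¬ G.Adj d e)
    (hS : Sg G x S v ≤ 3 * (302857 / 1000000) + 2 * (248186 / 1000000)) : False := by
  have ta := E.ta
  have tb := E.tb
  have tc := E.tc
  have td := E.td
  have te := E.te
  simp only [hab, hac, had, hae, hbc, hbd, hbe, hcd, hce, hde, if_false, if_true]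
    at ta tb tc td te
  have N := C.num
  have q := fun (p q : V) (hp : p ∈ nb G S v) (hq : q ∈ nb G S v) (hpq : p ≠ q)
      (tp : (inn G S v p).card = 1) (tq : (inn G S v q).card = 0) =>
    (C.ps E.hv E.dg hp (hs p q hp hq hpq) (k := 13) (by omega)).trans N.p13
  have q' := fun (p q : V) (hp : p ∈ nb G S v) (hq : q ∈ nb G S v) (hpq : p ≠ q)
      (tp : (inn G S v p).card = 0) (tq : (inn G S v q).card = 0) =>
    (C.ps E.hv E.dg hp (hs p q hp hq hpq) (k := 14) (by omega)).trans N.p14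
  have p0 : PE G x S v a b = 0 := PE_adj hab
  have p2 := q a c E.ha E.hc E.ac ta tc
  have p3 := q a d E.ha E.hd E.ad ta td
  have p4 := q a e E.ha E.he E.ae ta te
  have p5 := q b c E.hb E.hc E.bc tb tc
  have p6 := q b d E.hb E.hd E.bd tb td
  have p7 := q b e E.hb E.he E.be tb te
  have p8 := q' c d E.hc E.hd E.cd tc td
  have p9 := q' c e E.hc E.he E.ce tc te
  have p10 := q' d e E.hd E.he E.de td te
  have h3 := C.hthree E
  have hb := C.b6 E.hv
  linarith

/-- Two disjoint edges `a b`, `c d`, nothing else. -/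
theorem leaf2 (C : Ctx G x S) (E : N5 G S v a b c d e) (hs : Star G S v)
    (hab : G.Adj a b) (hac : ¬ G.Adj a c) (had : ¬ G.Adj a d) (hae : ¬ G.Adj a e)
    (hbc : ¬ G.Adj b c) (hbd : ¬ G.Adj b d) (hbe : ¬ G.Adj b e) (hcd : G.Adj c d)
    (hce : ¬ G.Adj c e) (hde : ¬ G.Adj d e) : False := by
  have ta := E.ta
  have tb := E.tb
  have tc := E.tc
  have td := E.td
  simp only [hab, hac, had, hae, hbc, hbd, hbe, hcd, hce, hde, if_false, if_true]
    at ta tb tc td
  have N := C.num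
  have q := fun (p q : V) (hp : p ∈ nb G S v) (hq : q ∈ nb G S v) (hpq : p ≠ q)
      (tp : (inn G S v p).card = 1) (tq : (inn G S v q).card = 1) =>
    (C.ps E.hv E.dg hp (hs p q hp hq hpq) (k := 12) (by omega)).trans N.p12
  have p1 := q a c E.ha E.hc E.ac ta tc
  have p2 := q a d E.ha E.hd E.ad ta td
  have p3 := q b c E.hb E.hc E.bc tb tc
  have p4 := q b d E.hb E.hd E.bd tb td
  have h1 := E.pivot C.x0 hab hcd
  have hb := C.b6 E.hv
  have he := C.b6 (mS E.he)
  have := C.big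
  linarith

/-- A path `p a b` with `p` big, and two isolated vertices. -/
theorem leaf3 {p : V} (C : Ctx G x S) (E : N5 G S v p a b c d) (hs : Star G S v)
    (hpa : G.Adj p a) (hpb : ¬ G.Adj p b) (hpc : ¬ G.Adj p c) (hpd : ¬ G.Adj p d)
    (hab : G.Adj a b) (hac : ¬ G.Adj a c) (had : ¬ G.Adj a d)
    (hbc : ¬ G.Adj b c) (hbd : ¬ G.Adj b d) (hcd : ¬ G.Adj c d)
    (hp : 6 ≤ dg G S p) : False := by
  have ta := E.ta
  have tb := E.tb
  have tc := E.tc
  have td := E.td
  have te := E.te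
  simp only [hpa, hpb, hpc, hpd, hab, hac, had, hbc, hbd, hcd, if_false, if_true]
    at ta tb tc td te
  have N := C.num
  have p0 : PE G x S v p a = 0 := PE_adj hpa
  have p1 : PE G x S v a b = 0 := PE_adj hab
  have p2 : PE G x S v p b ≤ 75165 / 1000000 := by
    refine le_trans (C.pair E.hv E.dg E.ha (k := 13) ?_) N.p13
    intro _
    have h1 := hs p b E.ha E.hc E.ac hpb
    have h2 : 0 < (inn G S v p ∩ inn G S v b).card := by
      rw [Finset.card_pos]
      refine ⟨a, ?_⟩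
      rw [Finset.mem_inter, mem_inn, mem_inn]
      have := mem_nb.mp E.hb
      exact ⟨⟨this.1, hpa, this.2⟩, ⟨this.1, hab.symm, this.2⟩⟩
    omega
  have q1 := fun (p q : V) (hp : p ∈ nb G S v) (hq : q ∈ nb G S v) (hpq : p ≠ q)
      (k : ℕ) (hk : k + (inn G S v p).card + (inn G S v q).card ≤ 14) =>
    (C.ps E.hv E.dg hp (hs p q hp hq hpq) (k := k) hk)
  have p3 := (q1 p c E.ha E.hd E.ad 13 (by omega)).trans N.p13
  have p4 := (q1 p d E.ha E.he E.ae 13 (by omega)).trans N.p13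
  have p5 := (q1 a c E.hb E.hd E.bd 12 (by omega)).trans N.p12
  have p6 := (q1 a d E.hb E.he E.be 12 (by omega)).trans N.p12
  have p7 := (q1 b c E.hc E.hd E.cd 13 (by omega)).trans N.p13
  have p8 := (q1 b d E.hc E.he E.ce 13 (by omega)).trans N.p13
  have p9 := (q1 c d E.hd E.he E.de 14 (by omega)).trans N.p14
  have h3 := C.hthree E
  have hb := C.b6 E.hv
  have hS := C.sg1 E.hv E.dg E.ha
  have hbp := C.b7 (mS E.ha) hp
  linarith

/-- A path `p a b` with `p` big, and an edge `c d`. -/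
theorem leaf4 {p : V} (C : Ctx G x S) (E : N5 G S v p a b c d) (hs : Star G S v)
    (hpa : G.Adj p a) (hpb : ¬ G.Adj p b) (hpc : ¬ G.Adj p c) (hpd : ¬ G.Adj p d)
    (hab : G.Adj a b) (hac : ¬ G.Adj a c) (had : ¬ G.Adj a d)
    (hbc : ¬ G.Adj b c) (hbd : ¬ G.Adj b d) (hcd : G.Adj c d)
    (hp : 6 ≤ dg G S p) : False := by
  have tb := E.tb
  have tc := E.tc
  have td := E.td
  have te := E.te
  simp only [hpa, hpb, hpc, hpd, hab, hac, had, hbc, hbd, hcd, if_false, if_true]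
    at tb tc td te
  have N := C.num
  have q1 := fun (p q : V) (hp : p ∈ nb G S v) (hq : q ∈ nb G S v) (hpq : p ≠ q)
      (k : ℕ) (hk : k + (inn G S v p).card + (inn G S v q).card ≤ 14) =>
    (C.ps E.hv E.dg hp (hs p q hp hq hpq) (k := k) hk)
  have p5 := (q1 a c E.hb E.hd E.bd 11 (by omega)).trans N.p11
  have p6 := (q1 a d E.hb E.he E.be 11 (by omega)).trans N.p11
  have p7 := (q1 b c E.hc E.hd E.cd 12 (by omega)).trans N.p12
  have p8 := (q1 b d E.hc E.he E.ce 12 (by omega)).trans N.p12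
  have h1 := (E.s12.s23.s34.s45).pivot C.x0 hab hcd
  have hb := C.b6 E.hv
  have hbp := C.b7 (mS E.ha) hp
  have := C.big
  linarith

end

end D88
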