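import Pool.Agent.D88.Match

/-!
# A low vertex of degree five with a low neighbour of degree five
-/

open Finset Classical H61DIS

namespace D88

noncomputable section

variable {V : Type*} {G : SimpleGraph V} {S : Finset V} {x : ℝ} {v p q c d e w : V}

/-- Star bounds for all pairs except `p, q`. -/
def StarX (G : SimpleGraph V) (S : Finset V) (v p q : V) : Prop :=
  ∀ a b, a ∈ nb G S v → b ∈ nb G S v → a ≠ b → (a ≠ p ∨ b ≠ q) → (a ≠ q ∨ b ≠ p) → St G S v a b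

theorem out_le_union_left (a b : V) : (out G S v a).card ≤ (out G S v a ∪ out G S v b).card :=
  Finset.card_le_card Finset.subset_union_left

theorem out_le_union_right (a b : V) : (out G S v b).card ≤ (out G S v a ∪ out G S v b).card :=
  Finset.card_le_card Finset.subset_union_right

/-- The hypotheses on the thick pair. -/
structure Th (G : SimpleGraph V) (x : ℝ) (S : Finset V) (v p q : V) : Prop where
  lv : B G x S {v} ∅ ≤ 273164 / 1000000
  lp : B G x S {p} ∅ ≤ 273164 / 1000000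
  lq : B G x S {q} ∅ ≤ 273164 / 1000000
  dp : dg G S p = 5
  dq : dg G S q = 5
  sx : StarX G S v p q

theorem Th.symm (H : Th G x S v p q) : Th G x S v q p :=
  ⟨H.lv, H.lq, H.lp, H.dq, H.dp, fun a b ha hb hab h1 h2 => H.sx a b ha hb hab h2 h1⟩

theorem Ctx.sgT (C : Ctx G x S) (H : Th G x S v p q) (hv : v ∈ S) (h5 : dg G S v = 5)
    (hp : p ∈ nb G S v) (hq : q ∈ nb G S v) (hpq : p ≠ q) :
    Sg G x S v ≤ 2 * (273164 / 1000000) + 3 * (302857 / 1000000) := by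
  have := C.sg2 hv h5 hp hq hpq
  have := H.lp
  have := H.lq
  linarith

/-- The exact cap of the thick pair. -/
theorem Ctx.thick (C : Ctx G x S) (H : Th G x S v p q) (hv : v ∈ S) (h5 : dg G S v = 5)
    (hp : p ∈ nb G S v) {k : ℕ}
    (hk : k + (inn G S v p).card ≤ 10) : PE G x S v p q ≤ x ^ k := by
  apply C.pair hv h5 hp
  intro _
  have h1 := dg_split hv hp
  have h2 := out_le_union_left (G := G) (S := S) (v := v) p q
  have h3 := H.dp
  omega

/-- No edges. -/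
theorem leafT0 (C : Ctx G x S) (H : Th G x S v p q) (E : N5 G S v p q c d e)
    (h1 : ¬ G.Adj p q) (h2 : ¬ G.Adj p c) (h3 : ¬ G.Adj p d) (h4 : ¬ G.Adj p e)
    (h5 : ¬ G.Adj q c) (h6 : ¬ G.Adj q d) (h7 : ¬ G.Adj q e) (h8 : ¬ G.Adj c d)
    (h9 : ¬ G.Adj c e) (h10 : ¬ G.Adj d e) : False := by
  have ta := E.ta
  have tb := E.tb
  have tc := E.tc
  have td := E.td
  have te := E.te
  simp only [h1, h2, h3, h4, h5, h6, h7, h8, h9, h10, if_false] at ta tb tc td te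
  have N := C.num
  have s := fun (a b : V) (ha : a ∈ nb G S v) (hb : b ∈ nb G S v) (hab : a ≠ b)
      (k1 : a ≠ p ∨ b ≠ q) (k2 : a ≠ q ∨ b ≠ p)
      (tp : (inn G S v a).card = 0) (tq : (inn G S v b).card = 0) =>
    (C.ps E.hv E.dg ha (H.sx a b ha hb hab k1 k2) (k := 14) (by omega)).trans N.p14
  have p1 := (C.thick H E.hv E.dg E.ha (k := 10) (by omega)).trans N.p10
  have p2 := s p c E.ha E.hc E.ac (Or.inr E.bc.symm) (Or.inl E.ab) ta tc
  have p3 := s p d E.ha E.hd E.ad (Or.inr E.bd.symm) (Or.inl E.ab) ta td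
  have p4 := s p e E.ha E.he E.ae (Or.inr E.be.symm) (Or.inl E.ab) ta te
  have p5 := s q c E.hb E.hc E.bc (Or.inl E.ab.symm) (Or.inr E.ac.symm) tb tc
  have p6 := s q d E.hb E.hd E.bd (Or.inl E.ab.symm) (Or.inr E.ad.symm) tb td
  have p7 := s q e E.hb E.he E.be (Or.inl E.ab.symm) (Or.inr E.ae.symm) tb te
  have p8 := s c d E.hc E.hd E.cd (Or.inl E.ac.symm) (Or.inl E.bc.symm) tc td
  have p9 := s c e E.hc E.he E.ce (Or.inl E.ac.symm) (Or.inl E.bc.symm) tc te
  have p10 := s d e E.hd E.he E.de (Or.inl E.ad.symm) (Or.inl E.bd.symm) td te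
  have hh := C.hthree E
  have hb := H.lv
  have hS := C.sgT H E.hv E.dg E.ha E.hb E.ab
  linarith

/-- A path `p w q` and two isolated vertices. -/
theorem leafT1 (C : Ctx G x S) (H : Th G x S v p q) (E : N5 G S v p w q c d)
    (h1 : G.Adj p w) (h2 : ¬ G.Adj p q) (h3 : ¬ G.Adj p c) (h4 : ¬ G.Adj p d)
    (h5 : G.Adj w q) (h6 : ¬ G.Adj w c) (h7 : ¬ G.Adj w d) (h8 : ¬ G.Adj q c)
    (h9 : ¬ G.Adj q d) (h10 : ¬ G.Adj c d) : False := by
  have ta := E.ta
  have tb := E.tb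
  have tc := E.tc
  have td := E.td
  have te := E.te
  simp only [h1, h2, h3, h4, h5, h6, h7, h8, h9, h10, if_false, if_true] at ta tb tc td te
  have N := C.num
  have s := fun (a b : V) (ha : a ∈ nb G S v) (hb : b ∈ nb G S v) (hab : a ≠ b)
      (k1 : a ≠ p ∨ b ≠ q) (k2 : a ≠ q ∨ b ≠ p) (k : ℕ)
      (hk : k + (inn G S v a).card + (inn G S v b).card ≤ 14) =>
    (C.ps E.hv E.dg ha (H.sx a b ha hb hab k1 k2) (k := k) hk)
  have p0 : PE G x S v p w = 0 := PE_adj h1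
  have p0' : PE G x S v w q = 0 := PE_adj h5
  have p1 := (C.thick H E.hv E.dg E.ha (k := 9) (by omega)).trans N.p9
  have p2 := (s p c E.ha E.hd E.ad (Or.inr E.cd.symm) (Or.inl E.ac) 13 (by omega)).trans N.p13
  have p3 := (s p d E.ha E.he E.ae (Or.inr E.ce.symm) (Or.inl E.ac) 13 (by omega)).trans N.p13
  have p4 := (s w c E.hb E.hd E.bd (Or.inl E.ab.symm) (Or.inl E.bc) 12 (by omega)).trans N.p12
  have p5 := (s w d E.hb E.he E.be (Or.inl E.ab.symm) (Or.inl E.bc) 12 (by omega)).trans N.p12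
  have p6 := (s q c E.hc E.hd E.cd (Or.inl E.ac.symm) (Or.inr E.ad.symm) 13
    (by omega)).trans N.p13
  have p7 := (s q d E.hc E.he E.ce (Or.inl E.ac.symm) (Or.inr E.ae.symm) 13
    (by omega)).trans N.p13
  have p8 := (s c d E.hd E.he E.de (Or.inl E.ad.symm) (Or.inl E.cd.symm) 14
    (by omega)).trans N.p14
  have hh := C.hthree E
  have hb := H.lv
  have hS := C.sgT H E.hv E.dg E.ha E.hc E.ac
  linarith

/-- A path `p w q` and an edge. -/
theorem leafT2 (C : Ctx G x S) (H : Th G x S v p q) (E : N5 G S v p w q c d)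
    (h1 : G.Adj p w) (h2 : ¬ G.Adj p q) (h3 : ¬ G.Adj p c) (h4 : ¬ G.Adj p d)
    (h5 : G.Adj w q) (h6 : ¬ G.Adj w c) (h7 : ¬ G.Adj w d) (h8 : ¬ G.Adj q c)
    (h9 : ¬ G.Adj q d) (h10 : G.Adj c d) : False := by
  have tb := E.tb
  have tc := E.tc
  have td := E.td
  have te := E.te
  simp only [h1, h2, h3, h4, h5, h6, h7, h8, h9, h10, if_false, if_true] at tb tc td te
  have N := C.num
  have s := fun (a b : V) (ha : a ∈ nb G S v) (hb : b ∈ nb G S v) (hab : a ≠ b)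
      (k1 : a ≠ p ∨ b ≠ q) (k2 : a ≠ q ∨ b ≠ p) (k : ℕ)
      (hk : k + (inn G S v a).card + (inn G S v b).card ≤ 14) =>
    (C.ps E.hv E.dg ha (H.sx a b ha hb hab k1 k2) (k := k) hk)
  have p4 := (s w c E.hb E.hd E.bd (Or.inl E.ab.symm) (Or.inl E.bc) 11 (by omega)).trans N.p11
  have p5 := (s w d E.hb E.he E.be (Or.inl E.ab.symm) (Or.inl E.bc) 11 (by omega)).trans N.p11
  have p6 := (s q c E.hc E.hd E.cd (Or.inl E.ac.symm) (Or.inr E.ad.symm) 12
    (by omega)).trans N.p12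
  have p7 := (s q d E.hc E.he E.ce (Or.inl E.ac.symm) (Or.inr E.ae.symm) 12
    (by omega)).trans N.p12
  have hh := (E.s12.s23.s34.s45).pivot C.x0 h5 h10
  have hb := H.lv
  have hp := H.lp
  have := C.big
  linarith

/-- Edges `p c` and `q d`. -/
theorem leafT3 (C : Ctx G x S) (H : Th G x S v p q) (E : N5 G S v p c q d e)
    (h1 : G.Adj p c) (h2 : ¬ G.Adj p q) (h3 : ¬ G.Adj p d) (h4 : ¬ G.Adj p e)
    (h5 : ¬ G.Adj c q) (h6 : ¬ G.Adj c d) (h7 : ¬ G.Adj c e) (h8 : G.Adj q d)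
    (h9 : ¬ G.Adj q e) (h10 : ¬ G.Adj d e) (de : dg G S e = 5) : False := by
  have ta := E.ta
  have tb := E.tb
  have tc := E.tc
  have td := E.td
  simp only [h1, h2, h3, h4, h5, h6, h7, h8, h9, h10, if_false, if_true] at ta tb tc td
  have N := C.num
  have s := fun (a b : V) (ha : a ∈ nb G S v) (hb : b ∈ nb G S v) (hab : a ≠ b)
      (k1 : a ≠ p ∨ b ≠ q) (k2 : a ≠ q ∨ b ≠ p)
      (tp : (inn G S v a).card = 1) (tq : (inn G S v b).card = 1) (hea : e ≠ a) (heb : e ≠ b)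
      (n1 : ¬ G.Adj a e) (n2 : ¬ G.Adj b e) =>
    (C.psG E.hv E.dg ha (H.sx a b ha hb hab k1 k2) (k := 12) (by omega) E.he hea heb n1 n2
      de).trans N.g12
  have p1 : PE G x S v p q ≤ 150329 / 1000000 := by
    refine le_trans (C.pairG E.hv E.dg E.ha (k := 9) ?_ E.he E.ae.symm E.ce.symm h4 h9 de) N.g9
    intro _
    have k1 := dg_split E.hv E.ha
    have k2 := out_le_union_left (G := G) (S := S) (v := v) p q
    have k3 := H.dp
    omega
  have p2 := s p d E.ha E.hd E.ad (Or.inr E.cd.symm) (Or.inl E.ac) ta td E.ae.symm E.de.symm h4 h10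
  have p3 := s c q E.hb E.hc E.bc (Or.inl E.ab.symm) (Or.inl E.bc) tb tc E.be.symm
    E.ce.symm h7 h9
  have p4 := s c d E.hb E.hd E.bd (Or.inl E.ab.symm) (Or.inl E.bc) tb td E.be.symm
    E.de.symm h7 h10
  have hh := E.pivot C.x0 h1 h8
  have hb := H.lv
  have he := C.b6 (mS E.he)
  have := C.big
  linarith

/-- Edges `p c` and `d e`; `q` isolated. -/
theorem leafT4 (C : Ctx G x S) (H : Th G x S v p q) (E : N5 G S v p c d e q)
    (h1 : G.Adj p c) (h2 : ¬ G.Adj p d) (h3 : ¬ G.Adj p e) (h4 : ¬ G.Adj p q)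
    (h5 : ¬ G.Adj c d) (h6 : ¬ G.Adj c e) (h7 : ¬ G.Adj c q) (h8 : G.Adj d e)
    (h9 : ¬ G.Adj d q) (h10 : ¬ G.Adj e q) : False := by
  have ta := E.ta
  have tb := E.tb
  have tc := E.tc
  have td := E.td
  simp only [h1, h2, h3, h4, h5, h6, h7, h8, h9, h10, if_false, if_true] at ta tb tc td
  have N := C.num
  have s := fun (a b : V) (ha : a ∈ nb G S v) (hb : b ∈ nb G S v) (hab : a ≠ b)
      (k1 : a ≠ p ∨ b ≠ q) (k2 : a ≠ q ∨ b ≠ p)
      (tp : (inn G S v a).card = 1) (tq : (inn G S v b).card = 1) =>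
    (C.ps E.hv E.dg ha (H.sx a b ha hb hab k1 k2) (k := 12) (by omega)).trans N.p12
  have p1 := s p d E.ha E.hc E.ac (Or.inr E.ce) (Or.inl E.ae) ta tc
  have p2 := s p e E.ha E.hd E.ad (Or.inr E.de) (Or.inl E.ae) ta td
  have p3 := s c d E.hb E.hc E.bc (Or.inl E.ab.symm) (Or.inl E.be) tb tc
  have p4 := s c e E.hb E.hd E.bd (Or.inl E.ab.symm) (Or.inl E.be) tb td
  have hh := E.pivot C.x0 h1 h8
  have hb := H.lv
  have he := H.lq
  have := C.big
  linarith

/-- One edge `p c`. -/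
theorem leafT5 (C : Ctx G x S) (H : Th G x S v p q) (E : N5 G S v p c q d e)
    (h1 : G.Adj p c) (h2 : ¬ G.Adj p q) (h3 : ¬ G.Adj p d) (h4 : ¬ G.Adj p e)
    (h5 : ¬ G.Adj c q) (h6 : ¬ G.Adj c d) (h7 : ¬ G.Adj c e) (h8 : ¬ G.Adj q d)
    (h9 : ¬ G.Adj q e) (h10 : ¬ G.Adj d e) : False := by
  have ta := E.ta
  have tb := E.tb
  have tc := E.tc
  have td := E.td
  have te := E.te
  simp only [h1, h2, h3, h4, h5, h6, h7, h8, h9, h10, if_false, if_true] at ta tb tc td te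
  have N := C.num
  have s := fun (a b : V) (ha : a ∈ nb G S v) (hb : b ∈ nb G S v) (hab : a ≠ b)
      (k1 : a ≠ p ∨ b ≠ q) (k2 : a ≠ q ∨ b ≠ p) (k : ℕ)
      (hk : k + (inn G S v a).card + (inn G S v b).card ≤ 14) =>
    (C.ps E.hv E.dg ha (H.sx a b ha hb hab k1 k2) (k := k) hk)
  have p0 : PE G x S v p c = 0 := PE_adj h1
  have p1 : PE G x S v p q ≤ 136583 / 1000000 := by
    rw [PE_comm]
    exact (C.thick H.symm E.hv E.dg E.hc (k := 10) (by omega)).trans N.p10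
  have p2 := (s p d E.ha E.hd E.ad (Or.inr E.cd.symm) (Or.inl E.ac) 13 (by omega)).trans N.p13
  have p3 := (s p e E.ha E.he E.ae (Or.inr E.ce.symm) (Or.inl E.ac) 13 (by omega)).trans N.p13
  have p4 := (s c q E.hb E.hc E.bc (Or.inl E.ab.symm) (Or.inl E.bc) 13 (by omega)).trans N.p13
  have p5 := (s c d E.hb E.hd E.bd (Or.inl E.ab.symm) (Or.inl E.bc) 13 (by omega)).trans N.p13
  have p6 := (s c e E.hb E.he E.be (Or.inl E.ab.symm) (Or.inl E.bc) 13 (by omega)).trans N.p13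
  have p7 := (s q d E.hc E.hd E.cd (Or.inl E.ac.symm) (Or.inr E.ad.symm) 14
    (by omega)).trans N.p14
  have p8 := (s q e E.hc E.he E.ce (Or.inl E.ac.symm) (Or.inr E.ae.symm) 14
    (by omega)).trans N.p14
  have p9 := (s d e E.hd E.he E.de (Or.inl E.ad.symm) (Or.inl E.cd.symm) 14
    (by omega)).trans N.p14
  have hh := C.hthree E
  have hb := H.lv
  have hS := C.sgT H E.hv E.dg E.ha E.hc E.ac
  linarith

/-- One edge `c d`; `p, q` isolated. -/
theorem leafT6 (C : Ctx G x S) (H : Th G x S v p q) (E : N5 G S v p q c d e)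
    (h1 : ¬ G.Adj p q) (h2 : ¬ G.Adj p c) (h3 : ¬ G.Adj p d) (h4 : ¬ G.Adj p e)
    (h5 : ¬ G.Adj q c) (h6 : ¬ G.Adj q d) (h7 : ¬ G.Adj q e) (h8 : G.Adj c d)
    (h9 : ¬ G.Adj c e) (h10 : ¬ G.Adj d e) : False := by
  have ta := E.ta
  have tb := E.tb
  have tc := E.tc
  have td := E.td
  have te := E.te
  simp only [h1, h2, h3, h4, h5, h6, h7, h8, h9, h10, if_false, if_true] at ta tb tc td te
  have N := C.num
  have s := fun (a b : V) (ha : a ∈ nb G S v) (hb : b ∈ nb G S v) (hab : a ≠ b)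
      (k1 : a ≠ p ∨ b ≠ q) (k2 : a ≠ q ∨ b ≠ p) (k : ℕ)
      (hk : k + (inn G S v a).card + (inn G S v b).card ≤ 14) =>
    (C.ps E.hv E.dg ha (H.sx a b ha hb hab k1 k2) (k := k) hk)
  have p0 : PE G x S v c d = 0 := PE_adj h8
  have p1 := (C.thick H E.hv E.dg E.ha (k := 10) (by omega)).trans N.p10
  have p2 := (s p c E.ha E.hc E.ac (Or.inr E.bc.symm) (Or.inl E.ab) 13 (by omega)).trans N.p13
  have p3 := (s p d E.ha E.hd E.ad (Or.inr E.bd.symm) (Or.inl E.ab) 13 (by omega)).trans N.p13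
  have p4 := (s p e E.ha E.he E.ae (Or.inr E.be.symm) (Or.inl E.ab) 14 (by omega)).trans N.p14
  have p5 := (s q c E.hb E.hc E.bc (Or.inl E.ab.symm) (Or.inr E.ac.symm) 13
    (by omega)).trans N.p13
  have p6 := (s q d E.hb E.hd E.bd (Or.inl E.ab.symm) (Or.inr E.ad.symm) 13
    (by omega)).trans N.p13
  have p7 := (s q e E.hb E.he E.be (Or.inl E.ab.symm) (Or.inr E.ae.symm) 14
    (by omega)).trans N.p14
  have p8 := (s c e E.hc E.he E.ce (Or.inl E.ac.symm) (Or.inl E.bc.symm) 13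
    (by omega)).trans N.p13
  have p9 := (s d e E.hd E.he E.de (Or.inl E.ad.symm) (Or.inl E.bd.symm) 13
    (by omega)).trans N.p13
  have hh := C.hthree E
  have hb := H.lv
  have hS := C.sgT H E.hv E.dg E.ha E.hb E.ab
  linarith

end

end D88
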