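import Pool.Agent.D88.Leaf

/-!
# The matching case and Lemma M
-/

open Finset Classical H61DIS

namespace D88

noncomputable section

variable {V : Type*} {G : SimpleGraph V} {S : Finset V} {x : ℝ} {v : V}

/-- No vertex of `N(v)` has two neighbours in `N(v)`. -/
def NP (G : SimpleGraph V) (S : Finset V) (v : V) : Prop :=
  ∀ w p q, w ∈ nb G S v → p ∈ nb G S v → q ∈ nb G S v → p ≠ q → G.Adj w p → ¬ G.Adj w q

/-- The neighbourhood induces a matching. -/
theorem matching (C : Ctx G x S) (hv : v ∈ S) (h5 : dg G S v = 5) (hs : Star G S v)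
    (hnp : NP G S v) : False := by
  by_cases hedge : ∃ a b, a ∈ nb G S v ∧ b ∈ nb G S v ∧ G.Adj a b
  · obtain ⟨a, b, ha, hb, hab⟩ := hedge
    obtain ⟨c, d, e, E⟩ := pick2 hv h5 ha hb hab.ne
    have hac : ¬ G.Adj a c := hnp a b c E.ha E.hb E.hc E.bc hab
    have had : ¬ G.Adj a d := hnp a b d E.ha E.hb E.hd E.bd hab
    have hae : ¬ G.Adj a e := hnp a b e E.ha E.hb E.he E.be hab
    have hbc : ¬ G.Adj b c := hnp b a c E.hb E.ha E.hc E.ac hab.symm
    have hbd : ¬ G.Adj b d := hnp b a d E.hb E.ha E.hd E.ad hab.symm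
    have hbe : ¬ G.Adj b e := hnp b a e E.hb E.ha E.he E.ae hab.symm
    by_cases hcd : G.Adj c d
    · have hce : ¬ G.Adj c e := hnp c d e E.hc E.hd E.he E.de hcd
      have hde : ¬ G.Adj d e := hnp d c e E.hd E.hc E.he E.ce hcd.symm
      exact leaf2 C E hs hab hac had hae hbc hbd hbe hcd hce hde
    by_cases hce : G.Adj c e
    · have hde : ¬ G.Adj e d := hnp e c d E.he E.hc E.hd E.cd hce.symm
      exact leaf2 C E.s45 hs hab hac hae had hbc hbe hbd hce hcd hde
    by_cases hde : G.Adj d e
    · exact leaf2 C E.s34.s45 hs hab had hae hac hbd hbe hbc hde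
        (fun h => hcd h.symm) (fun h => hce h.symm)
    -- exactly one edge
    by_cases hbig : ∃ p q, p ∈ nb G S v ∧ q ∈ nb G S v ∧ p ≠ q ∧ 6 ≤ dg G S p ∧ 6 ≤ dg G S q
    · obtain ⟨p, q, hp, hq, hpq, dp, dq⟩ := hbig
      have h1 := C.sg2 hv h5 hp hq hpq
      have h2 := C.b7 (mS hp) dp
      have h3 := C.b7 (mS hq) dq
      exact leaf1b C E hs hab hac had hae hbc hbd hbe hcd hce hde (by linarith)
    · have key : ∀ p q, p ∈ nb G S v → q ∈ nb G S v → p ≠ q → dg G S p = 5 ∨ dg G S q = 5 := by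
        intro p q hp hq hpq
        by_contra hh
        push Not at hh
        have h1 := C.h5 p (mS hp)
        have h2 := C.h5 q (mS hq)
        exact hbig ⟨p, q, hp, hq, hpq, by omega, by omega⟩
      exact leaf1a C E hs hab hac had hae hbc hbd hbe hcd hce hde
        (key a b E.ha E.hb E.ab) (key c d E.hc E.hd E.cd) (key c e E.hc E.he E.ce)
        (key d e E.hd E.he E.de)
  · have hno : ∀ a b, a ∈ nb G S v → b ∈ nb G S v → ¬ G.Adj a b :=
      fun a b ha hb hab => hedge ⟨a, b, ha, hb, hab⟩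
    obtain ⟨a, b, c, d, e, E⟩ := pick0 hv h5
    have hab := hno a b E.ha E.hb
    have hac := hno a c E.ha E.hc
    have had := hno a d E.ha E.hd
    have hae := hno a e E.ha E.he
    have hbc := hno b c E.hb E.hc
    have hbd := hno b d E.hb E.hd
    have hbe := hno b e E.hb E.he
    have hcd := hno c d E.hc E.hd
    have hce := hno c e E.hc E.he
    have hde := hno d e E.hd E.he
    by_cases hbig : ∃ p, p ∈ nb G S v ∧ 6 ≤ dg G S p
    · obtain ⟨p, hp, dp⟩ := hbig
      have h1 := C.sg1 hv h5 hp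
      have h2 := C.b7 (mS hp) dp
      exact leaf0b C E hs hab hac had hae hbc hbd hbe hcd hce hde (by linarith)
    · have key : ∀ p, p ∈ nb G S v → dg G S p = 5 := by
        intro p hp
        by_contra hh
        have h1 := C.h5 p (mS hp)
        exact hbig ⟨p, hp, by omega⟩
      exact leaf0a C E hs hab hac had hae hbc hbd hbe hcd hce hde (key a E.ha) (key b E.hb)
        (key c E.hc)

/-- The neighbourhood of a vertex of degree five is triangle-free. -/
theorem tri_free (C : Ctx G x S) (hv : v ∈ S) (h5 : dg G S v = 5) {a b c : V}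
    (ha : a ∈ nb G S v) (hb : b ∈ nb G S v) (hc : c ∈ nb G S v) (hab : G.Adj a b)
    (hac : G.Adj a c) (hbc : G.Adj b c) : False := by
  obtain ⟨d, e, E⟩ := pick3 hv h5 ha hb hc hab.ne hac.ne hbc.ne
  have h1 := E.tri C.x0 hab hac hbc
  have := C.b6 hv
  have := C.b6 (mS E.hd)
  have := C.b6 (mS E.he)
  have := C.big
  linarith

/-- Two common neighbours, namely `v` and `w`. -/
theorem cn_two (hv : v ∈ S) {p q w : V} (hp : p ∈ nb G S v) (hq : q ∈ nb G S v)
    (hw : w ∈ nb G S v) (hpw : G.Adj w p) (hwq : G.Adj w q) : 2 ≤ (cn G S p q).card := by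
  have h1 : ({v, w} : Finset V) ⊆ cn G S p q := by
    intro y hy
    simp only [Finset.mem_insert, Finset.mem_singleton] at hy
    unfold cn
    rw [Finset.mem_inter, mem_nb, mem_nb]
    rcases hy with rfl | rfl
    · exact ⟨⟨hv, (mem_nb.mp hp).2.symm⟩, ⟨hv, (mem_nb.mp hq).2.symm⟩⟩
    · exact ⟨⟨mS hw, hpw.symm⟩, ⟨mS hw, hwq.symm⟩⟩
  have h2 := Finset.card_le_card h1
  rwa [Finset.card_pair (mem_nb.mp hw).2.ne] at h2

/-- Lemma M: no vertex of degree five of `N(v)` is low. -/
theorem lemmaM (C : Ctx G x S) (hv : v ∈ S) (h5 : dg G S v = 5)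
    (hnl : ∀ u ∈ nb G S v, dg G S u = 5 → ¬ Low G S u) : False := by
  have hh := C.hhalf hv h5
  have hbv := C.b6 hv
  -- two big vertices have degree six and are not low
  have F2 : ∀ p q, p ∈ nb G S v → q ∈ nb G S v → p ≠ q → 6 ≤ dg G S p → 6 ≤ dg G S q →
      dg G S p = 6 ∧ ¬ Low G S p := by
    intro p q hp hq hpq dp dq
    have h1 := C.sg2 hv h5 hp hq hpq
    have h2 := C.b7 (mS hq) dq
    constructor
    · by_contra h3
      have h4 := C.b8 (mS hp) (by omega)
      linarith
    · intro h3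
      have h4 := C.b7L (mS hp) h3 dp
      linarith
  have F3 : ∀ p q r, p ∈ nb G S v → q ∈ nb G S v → r ∈ nb G S v → p ≠ q → p ≠ r → q ≠ r →
      6 ≤ dg G S p → 6 ≤ dg G S q → 6 ≤ dg G S r → False := by
    intro p q r hp hq hr hpq hpr hqr dp dq dr
    have h1 := C.sg3 hv h5 hp hq hr hpq hpr hqr
    have h2 := C.b7 (mS hp) dp
    have h3 := C.b7 (mS hq) dq
    have h4 := C.b7 (mS hr) dr
    linarith
  -- star bounds
  have hs : Star G S v := by
    intro a b ha hb hab hna
    by_cases la : Low G S a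
    · have da : 6 ≤ dg G S a := by
        have h1 := C.h5 a (mS ha)
        by_contra h2
        exact hnl a ha (by omega) la
      have lb : ¬ Low G S b := by
        intro lb
        have db : 6 ≤ dg G S b := by
          have h1 := C.h5 b (mS hb)
          by_contra h2
          exact hnl b hb (by omega) lb
        exact (F2 a b ha hb hab da db).2 la
      have := star C.h5 hv hb ha hab (fun h => hna h.symm) lb
      rw [Finset.inter_comm, Finset.union_comm] at this
      omega
    · exact star C.h5 hv ha hb hab.symm hna la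
  -- thick pairs
  have T : ∀ a b w, a ∈ nb G S v → b ∈ nb G S v → w ∈ nb G S v → a ≠ b → ¬ G.Adj a b →
      G.Adj w a → G.Adj w b → (6 ≤ dg G S a ∨ 6 ≤ dg G S b) ∧
        ∀ r ∈ nb G S v, 6 ≤ dg G S r → r = a ∨ r = b := by
    intro a b w ha hb hw hab hna hwa hwb
    have h2 := cn_two hv ha hb hw hwa hwb
    have h2' : 2 ≤ (cn G S b a).card := by rw [cn_comm]; exact h2
    have h5a := C.h5 a (mS ha)
    have h5b := C.h5 b (mS hb)
    have key : ∀ p q, p ∈ nb G S v → q ∈ nb G S v → p ≠ q → ¬ G.Adj p q →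
        2 ≤ (cn G S p q).card → dg G S q = 5 → Low G S p := by
      intro p q hp hq hpq hna h2 dq
      exact low_of (mS hq) hpq.symm hna (by omega)
    constructor
    · by_contra h3
      push Not at h3
      exact hnl a ha (by omega) (key a b ha hb hab hna h2 (by omega))
    · intro r hr dr
      by_contra h3
      push Not at h3
      by_cases da : 6 ≤ dg G S a
      · by_cases db : 6 ≤ dg G S b
        · exact F3 a b r ha hb hr hab h3.1.symm h3.2.symm da db dr
        · exact (F2 a r ha hr h3.1.symm da dr).2 (key a b ha hb hab hna h2 (by omega))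
      · by_cases db : 6 ≤ dg G S b
        · exact (F2 b r hb hr h3.2.symm db dr).2
            (key b a hb ha hab.symm (fun h => hna h.symm) h2' (by omega))
        · exact hnl a ha (by omega) (key a b ha hb hab hna h2 (by omega))
  -- induced paths
  have P3 : ∀ p w q, p ∈ nb G S v → w ∈ nb G S v → q ∈ nb G S v → p ≠ q → G.Adj w p →
      G.Adj w q → 6 ≤ dg G S p → False := by
    intro p w q hp hw hq hpq hwp hwq dp
    have hna : ¬ G.Adj p q := fun h => tri_free C hv h5 hw hp hq hwp hwq h
    obtain ⟨s, t, E⟩ := pick3 hv h5 hp hw hq hwp.ne.symm hpq hwq.ne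
    -- nothing else is adjacent to `p, w, q`
    have N1 : ∀ s, s ∈ nb G S v → s ≠ p → s ≠ w → s ≠ q → ¬ G.Adj p s ∧ ¬ G.Adj w s ∧
        ¬ G.Adj q s := by
      intro s hs' hsp hsw hsq
      refine ⟨?_, ?_, ?_⟩
      · intro hps
        have h1 : ¬ G.Adj s w := fun h => tri_free C hv h5 hp hs' hw hps hwp.symm h
        have h2 := (T s w p hs' hw hp hsw h1 hps hwp.symm).2 p hp dp
        rcases h2 with h2 | h2
        · exact hsp h2.symm
        · exact hwp.ne h2.symm
      · intro hws
        have h1 : ¬ G.Adj s q := fun h => tri_free C hv h5 hw hs' hq hws hwq h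
        have h2 := (T s q w hs' hq hw hsq h1 hws hwq).2 p hp dp
        rcases h2 with h2 | h2
        · exact hsp h2.symm
        · exact hpq h2
      · intro hqs
        have h1 : ¬ G.Adj s w := fun h => tri_free C hv h5 hq hs' hw hqs hwq.symm h
        have h2 := (T s w q hs' hw hq hsw h1 hqs hwq.symm).2 p hp dp
        rcases h2 with h2 | h2
        · exact hsp h2.symm
        · exact hwp.ne h2.symm
    have ns := N1 s E.hd E.ad.symm E.bd.symm E.cd.symm
    have nt := N1 t E.he E.ae.symm E.be.symm E.ce.symm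
    by_cases hst : G.Adj s t
    · exact leaf4 C E hs hwp.symm hna ns.1 nt.1 hwq ns.2.1 nt.2.1 ns.2.2 nt.2.2 hst dp
    · exact leaf3 C E hs hwp.symm hna ns.1 nt.1 hwq ns.2.1 nt.2.1 ns.2.2 nt.2.2 hst dp
  -- hence a matching
  apply matching C hv h5 hs
  intro w p q hw hp hq hpq hwp hwq
  have hna : ¬ G.Adj p q := fun h => tri_free C hv h5 hw hp hq hwp hwq h
  rcases (T p q w hp hq hw hpq hna hwp hwq).1 with dp | dq
  · exact P3 p w q hp hw hq hpq hwp hwq dp
  · exact P3 q w p hq hw hp hpq.symm hwq hwp dq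

end

end D88
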