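import Pool.Agent.D88.Num

/-!
# More numerical bounds for `x = 6 ^ (-1/9)`
-/

namespace D88

variable {x : ℝ}

theorem num_lt2 (hx : x ^ 9 = 1 / 6) : x < 8194815 / 10000000 := by
  by_contra hh
  push Not at hh
  have h1 : (8194815 / 10000000 : ℝ) ^ 9 ≤ x ^ 9 := pow_le_pow_left₀ (by norm_num) hh 9
  rw [hx] at h1
  norm_num at h1

theorem pow_le_num (hx0 : 0 < x) (hx : x ^ 9 = 1 / 6) (k : ℕ) {c : ℝ}
    (hc : (8194815 / 10000000 : ℝ) ^ k ≤ c) : x ^ k ≤ c :=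
  (pow_le_pow_left₀ hx0.le (num_lt2 hx).le k).trans hc

/-- Numerical upper bounds. -/
structure Num (x : ℝ) : Prop where
  p6 : x ^ 6 ≤ 302857 / 1000000
  p7 : x ^ 7 ≤ 248186 / 1000000
  p8 : x ^ 8 ≤ 203384 / 1000000
  p9 : x ^ 9 ≤ 166670 / 1000000
  p10 : x ^ 10 ≤ 136583 / 1000000
  p11 : x ^ 11 ≤ 111927 / 1000000
  p12 : x ^ 12 ≤ 91723 / 1000000
  p13 : x ^ 13 ≤ 75165 / 1000000
  p14 : x ^ 14 ≤ 61597 / 1000000
  g6 : 2 * x ^ 4 * x ^ 6 ≤ 273164 / 1000000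
  g7 : 2 * x ^ 4 * x ^ 7 ≤ 223853 / 1000000
  g9 : 2 * x ^ 4 * x ^ 9 ≤ 150329 / 1000000
  g12 : 2 * x ^ 4 * x ^ 12 ≤ 82730 / 1000000
  g13 : 2 * x ^ 4 * x ^ 13 ≤ 67796 / 1000000
  g14 : 2 * x ^ 4 * x ^ 14 ≤ 55558 / 1000000

theorem num (hx0 : 0 < x) (hx : x ^ 9 = 1 / 6) : Num x := by
  have hb := fun (k : ℕ) (c : ℝ) (hc : (8194815 / 10000000 : ℝ) ^ k ≤ c) =>
    pow_le_num hx0 hx k hc
  have hg := fun (k : ℕ) (c : ℝ) (hc : 2 * (8194815 / 10000000 : ℝ) ^ (4 + k) ≤ c) =>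
    (show 2 * x ^ 4 * x ^ k ≤ c by
      have h1 : 2 * x ^ 4 * x ^ k = 2 * x ^ (4 + k) := by rw [pow_add]; ring
      rw [h1]
      have := pow_le_num hx0 hx (4 + k) le_rfl
      linarith)
  exact ⟨hb 6 _ (by norm_num), hb 7 _ (by norm_num), hb 8 _ (by norm_num), hb 9 _ (by norm_num),
    hb 10 _ (by norm_num), hb 11 _ (by norm_num), hb 12 _ (by norm_num), hb 13 _ (by norm_num),
    hb 14 _ (by norm_num), hg 6 _ (by norm_num), hg 7 _ (by norm_num), hg 9 _ (by norm_num),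
    hg 12 _ (by norm_num), hg 13 _ (by norm_num), hg 14 _ (by norm_num)⟩

end D88
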