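import Pool.Agent.H61DIS.Claw2
import Pool.Agent.D88.Num2

/-!
# Neighbourhoods of five vertices: counting inequalities
-/

open Finset Classical H61DIS

namespace D88

noncomputable section

variable {V : Type*} {G : SimpleGraph V} {S : Finset V} {x : ℝ} {v a b c d e : V}

/-- `a, b, c, d, e` are the five neighbours of `v` in `S`. -/
structure N5 (G : SimpleGraph V) (S : Finset V) (v a b c d e : V) : Prop where
  hv : v ∈ S
  eq : nb G S v = {a, b, c, d, e}
  ab : a ≠ b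
  ac : a ≠ c
  ad : a ≠ d
  ae : a ≠ e
  bc : b ≠ c
  bd : b ≠ d
  be : b ≠ e
  cd : c ≠ d
  ce : c ≠ e
  de : d ≠ e

theorem N5.s12 (E : N5 G S v a b c d e) : N5 G S v b a c d e :=
  ⟨E.hv, by rw [E.eq]; ext w; simp only [Finset.mem_insert, Finset.mem_singleton]; tauto,
    E.ab.symm, E.bc, E.bd, E.be, E.ac, E.ad, E.ae, E.cd, E.ce, E.de⟩

theorem N5.s23 (E : N5 G S v a b c d e) : N5 G S v a c b d e :=
  ⟨E.hv, by rw [E.eq]; ext w; simp only [Finset.mem_insert, Finset.mem_singleton]; tauto,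
    E.ac, E.ab, E.ad, E.ae, E.bc.symm, E.cd, E.ce, E.bd, E.be, E.de⟩

theorem N5.s34 (E : N5 G S v a b c d e) : N5 G S v a b d c e :=
  ⟨E.hv, by rw [E.eq]; ext w; simp only [Finset.mem_insert, Finset.mem_singleton]; tauto,
    E.ab, E.ad, E.ac, E.ae, E.bd, E.bc, E.be, E.cd.symm, E.de, E.ce⟩

theorem N5.s45 (E : N5 G S v a b c d e) : N5 G S v a b c e d :=
  ⟨E.hv, by rw [E.eq]; ext w; simp only [Finset.mem_insert, Finset.mem_singleton]; tauto,
    E.ab, E.ac, E.ae, E.ad, E.bc, E.be, E.bd, E.ce, E.cd, E.de.symm⟩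

theorem N5.ha (E : N5 G S v a b c d e) : a ∈ nb G S v := by rw [E.eq]; simp
theorem N5.hb (E : N5 G S v a b c d e) : b ∈ nb G S v := by rw [E.eq]; simp
theorem N5.hc (E : N5 G S v a b c d e) : c ∈ nb G S v := by rw [E.eq]; simp
theorem N5.hd (E : N5 G S v a b c d e) : d ∈ nb G S v := by rw [E.eq]; simp
theorem N5.he (E : N5 G S v a b c d e) : e ∈ nb G S v := by rw [E.eq]; simp

theorem N5.dg (E : N5 G S v a b c d e) : dg G S v = 5 := by
  unfold H61DIS.dg
  rw [E.eq, c5 E.ab E.ac E.ad E.ae E.bc E.bd E.be E.cd E.ce E.de]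

theorem N5.all (E : N5 G S v a b c d e) {w : V} (hw : w ∈ nb G S v) :
    w = a ∨ w = b ∨ w = c ∨ w = d ∨ w = e := by
  rw [E.eq] at hw
  simpa using hw

theorem pick2 (hv : v ∈ S) (h5 : dg G S v = 5) (ha : a ∈ nb G S v) (hb : b ∈ nb G S v)
    (hab : a ≠ b) : ∃ c d e, N5 G S v a b c d e := by
  unfold H61DIS.dg at h5
  have hb' : b ∈ (nb G S v).erase a := Finset.mem_erase.mpr ⟨hab.symm, hb⟩
  have h3 : (((nb G S v).erase a).erase b).card = 3 := by
    rw [Finset.card_erase_of_mem hb', Finset.card_erase_of_mem ha]; omega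
  obtain ⟨c, d, e, hcd, hce, hde, he⟩ := Finset.card_eq_three.mp h3
  have hc : c ∈ ((nb G S v).erase a).erase b := by rw [he]; simp
  have hd : d ∈ ((nb G S v).erase a).erase b := by rw [he]; simp
  have hee : e ∈ ((nb G S v).erase a).erase b := by rw [he]; simp
  simp only [Finset.mem_erase] at hc hd hee
  refine ⟨c, d, e, hv, ?_, hab, hc.2.1.symm, hd.2.1.symm, hee.2.1.symm, hc.1.symm, hd.1.symm,
    hee.1.symm, hcd, hce, hde⟩
  rw [← he, Finset.insert_erase hb', Finset.insert_erase ha]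

theorem pick3 (hv : v ∈ S) (h5 : dg G S v = 5) (ha : a ∈ nb G S v) (hb : b ∈ nb G S v)
    (hc : c ∈ nb G S v) (hab : a ≠ b) (hac : a ≠ c) (hbc : b ≠ c) :
    ∃ d e, N5 G S v a b c d e := by
  obtain ⟨p, q, r, E⟩ := pick2 hv h5 ha hb hab
  rcases E.all hc with rfl | rfl | rfl | rfl | rfl
  · exact absurd rfl hac
  · exact absurd rfl hbc
  · exact ⟨_, _, E⟩
  · exact ⟨_, _, E.s34⟩
  · exact ⟨_, _, E.s45.s34⟩

theorem pick1 (hv : v ∈ S) (h5 : dg G S v = 5) (ha : a ∈ nb G S v) :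
    ∃ b c d e, N5 G S v a b c d e := by
  have h4 : ((nb G S v).erase a).card = 4 := by
    unfold H61DIS.dg at h5
    rw [Finset.card_erase_of_mem ha]; omega
  obtain ⟨b, hb⟩ : ((nb G S v).erase a).Nonempty := Finset.card_pos.mp (by omega)
  rw [Finset.mem_erase] at hb
  obtain ⟨c, d, e, E⟩ := pick2 hv h5 ha hb.2 hb.1.symm
  exact ⟨b, c, d, e, E⟩

theorem pick0 (hv : v ∈ S) (h5 : dg G S v = 5) : ∃ a b c d e, N5 G S v a b c d e := by
  obtain ⟨a, ha⟩ : (nb G S v).Nonempty := by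
    unfold H61DIS.dg at h5
    exact Finset.card_pos.mp (by omega)
  obtain ⟨b, c, d, e, E⟩ := pick1 hv h5 ha
  exact ⟨a, b, c, d, e, E⟩

/-- The normalised number of sets meeting `N(v)` exactly in `a, b`. -/
def PE (G : SimpleGraph V) (x : ℝ) (S : Finset V) (v a b : V) : ℝ :=
  B G x S {a, b} (nb G S v \ {a, b})

theorem PE_comm (a b : V) : PE G x S v a b = PE G x S v b a := by
  unfold PE; rw [Finset.pair_comm]

theorem cnt_sum (T R : Finset V) :
    cnt G S T R = ∑ D ∈ dis G S, if (T ⊆ D ∧ Disjoint D R) then 1 else 0 := by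
  unfold cnt; rw [Finset.card_filter]

theorem sing_iff (a : V) (D : Finset V) : (({a} : Finset V) ⊆ D ∧ Disjoint D ∅) ↔ a ∈ D := by
  simp

theorem N5.ex_iff (E : N5 G S v a b c d e) (D : Finset V) :
    (({a, b} : Finset V) ⊆ D ∧ Disjoint D (nb G S v \ {a, b})) ↔
      (a ∈ D ∧ b ∈ D ∧ c ∉ D ∧ d ∉ D ∧ e ∉ D) := by
  have h1 : nb G S v \ {a, b} = {c, d, e} := by
    rw [E.eq]
    ext w
    simp only [Finset.mem_sdiff, Finset.mem_insert, Finset.mem_singleton]
    constructor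
    · tauto
    · rintro (rfl | rfl | rfl)
      · exact ⟨by tauto, by rintro (h | h); exacts [E.ac h.symm, E.bc h.symm]⟩
      · exact ⟨by tauto, by rintro (h | h); exacts [E.ad h.symm, E.bd h.symm]⟩
      · exact ⟨by tauto, by rintro (h | h); exacts [E.ae h.symm, E.be h.symm]⟩
  rw [h1]
  constructor
  · rintro ⟨hs, hd⟩
    rw [Finset.disjoint_right] at hd
    exact ⟨hs (by simp), hs (by simp), hd (by simp), hd (by simp), hd (by simp)⟩
  · rintro ⟨h1, h2, h3, h4, h5⟩
    refine ⟨?_, ?_⟩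
    · intro w hw
      simp only [Finset.mem_insert, Finset.mem_singleton] at hw
      rcases hw with rfl | rfl <;> assumption
    · rw [Finset.disjoint_right]
      intro w hw
      simp only [Finset.mem_insert, Finset.mem_singleton] at hw
      rcases hw with rfl | rfl | rfl <;> assumption

theorem N5.sum {M : Type*} [AddCommMonoid M] (E : N5 G S v a b c d e) (f : V → M) :
    ∑ w ∈ nb G S v, f w = f a + (f b + (f c + (f d + f e))) := by
  rw [E.eq, Finset.sum_insert (by simp [E.ab, E.ac, E.ad, E.ae]),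
    Finset.sum_insert (by simp [E.bc, E.bd, E.be]), Finset.sum_insert (by simp [E.cd, E.ce]),
    Finset.sum_pair E.de]

/-- At least two of the five neighbours. -/
theorem N5.two_le (E : N5 G S v a b c d e) {D : Finset V} (hD : D ∈ dis G S) (hvD : v ∉ D) :
    2 ≤ (if a ∈ D then 1 else 0) + ((if b ∈ D then 1 else 0) + ((if c ∈ D then 1 else 0) +
      ((if d ∈ D then 1 else 0) + (if e ∈ D then 1 else 0)))) := by
  have hD' := mem_dis.mp hD
  have h1 := hD'.2.2 v E.hv hvD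
  have h2 : nb G D v ⊆ (nb G S v).filter (fun w => w ∈ D) := by
    intro w hw
    rw [mem_nb] at hw
    rw [Finset.mem_filter, mem_nb]
    exact ⟨⟨hD'.1 hw.1, hw.2⟩, hw.1⟩
  have h3 := h1.trans (Finset.card_le_card h2)
  rw [Finset.card_filter, E.sum] at h3
  exact h3

theorem sum_ineq (hx0 : 0 ≤ x) {m n : ℕ} (hmn : m ≤ n) : (m : ℝ) * x ^ S.card ≤ n * x ^ S.card := by
  have : (m : ℝ) ≤ n := by exact_mod_cast hmn
  gcongr

/-- The triple inequality. -/
theorem N5.three (E : N5 G S v a b c d e) (hx0 : 0 ≤ x) :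
    3 * h G x S ≤ 3 * B G x S {v} ∅ + (B G x S {a} ∅ + B G x S {b} ∅ + B G x S {c} ∅ +
      B G x S {d} ∅ + B G x S {e} ∅) + (PE G x S v a b + PE G x S v a c + PE G x S v a d +
      PE G x S v a e + PE G x S v b c + PE G x S v b d + PE G x S v b e + PE G x S v c d +
      PE G x S v c e + PE G x S v d e) := by
  have key : 3 * (dis G S).card ≤ 3 * cnt G S {v} ∅ + (cnt G S {a} ∅ + cnt G S {b} ∅ +
      cnt G S {c} ∅ + cnt G S {d} ∅ + cnt G S {e} ∅) +
      (cnt G S {a, b} (nb G S v \ {a, b}) + cnt G S {a, c} (nb G S v \ {a, c}) +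
      cnt G S {a, d} (nb G S v \ {a, d}) + cnt G S {a, e} (nb G S v \ {a, e}) +
      cnt G S {b, c} (nb G S v \ {b, c}) + cnt G S {b, d} (nb G S v \ {b, d}) +
      cnt G S {b, e} (nb G S v \ {b, e}) + cnt G S {c, d} (nb G S v \ {c, d}) +
      cnt G S {c, e} (nb G S v \ {c, e}) + cnt G S {d, e} (nb G S v \ {d, e})) := by
    simp only [cnt_sum, sing_iff, E.ex_iff, E.s23.ex_iff, E.s34.s23.ex_iff, E.s45.s34.s23.ex_iff,
      E.s12.s23.ex_iff, E.s12.s34.s23.ex_iff, E.s12.s45.s34.s23.ex_iff,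
      E.s23.s12.s34.s23.ex_iff, E.s23.s12.s45.s34.s23.ex_iff, E.s34.s23.s12.s45.s34.s23.ex_iff]
    rw [Finset.card_eq_sum_ones]
    simp only [Finset.mul_sum, ← Finset.sum_add_distrib]
    apply Finset.sum_le_sum
    intro D hD
    by_cases hvD : v ∈ D
    · simp [hvD]
      omega
    · have h2 := E.two_le hD hvD
      by_cases k1 : a ∈ D <;> by_cases k2 : b ∈ D <;> by_cases k3 : c ∈ D <;>
        by_cases k4 : d ∈ D <;> by_cases k5 : e ∈ D <;>
        simp [k1, k2, k3, k4, k5, hvD] at h2 ⊢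
  have key' := sum_ineq (S := S) hx0 key
  unfold PE B h
  push_cast at key'
  linarith

end

end D88
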