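import Pool.Agent.D88.Pent

/-!
# Pivot, triangle and half-sum inequalities; caps for exact pairs
-/

open Finset Classical H61DIS

namespace D88

noncomputable section

variable {V : Type*} {G : SimpleGraph V} {S : Finset V} {x : ℝ} {v a b c d e : V}

/-- The half-sum inequality. -/
theorem N5.half (E : N5 G S v a b c d e) (hx0 : 0 ≤ x) :
    2 * h G x S ≤ 2 * B G x S {v} ∅ + (B G x S {a} ∅ + B G x S {b} ∅ + B G x S {c} ∅ +
      B G x S {d} ∅ + B G x S {e} ∅) := by
  have := H61DIS.half (G := G) hx0 E.hv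
  rw [E.sum] at this
  linarith

/-- The pivot inequality: `a ~ b`, `c ~ d`, pivot `e`. -/
theorem N5.pivot (E : N5 G S v a b c d e) (hx0 : 0 ≤ x) (hab : G.Adj a b) (hcd : G.Adj c d) :
    h G x S ≤ B G x S {v} ∅ + B G x S {e} ∅ + (PE G x S v a c + PE G x S v a d +
      PE G x S v b c + PE G x S v b d) := by
  have key : 1 * (dis G S).card ≤ cnt G S {v} ∅ + cnt G S {e} ∅ +
      (cnt G S {a, c} (nb G S v \ {a, c}) +
      cnt G S {a, d} (nb G S v \ {a, d}) +
      cnt G S {b, c} (nb G S v \ {b, c}) + cnt G S {b, d} (nb G S v \ {b, d})) := by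
    simp only [cnt_sum, sing_iff, E.s23.ex_iff, E.s34.s23.ex_iff,
      E.s12.s23.ex_iff, E.s12.s34.s23.ex_iff]
    rw [Finset.card_eq_sum_ones]
    simp only [Finset.mul_sum, ← Finset.sum_add_distrib]
    apply Finset.sum_le_sum
    intro D hD
    by_cases hvD : v ∈ D
    · simp [hvD]
      omega
    · have h2 := E.two_le hD hvD
      have hind := (mem_dis.mp hD).2.1
      have i1 : ¬ (a ∈ D ∧ b ∈ D) := fun hh => hind a hh.1 b hh.2 hab
      have i2 : ¬ (c ∈ D ∧ d ∈ D) := fun hh => hind c hh.1 d hh.2 hcd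
      by_cases k1 : a ∈ D <;> by_cases k2 : b ∈ D <;> by_cases k3 : c ∈ D <;>
        by_cases k4 : d ∈ D <;> by_cases k5 : e ∈ D <;>
        simp [k1, k2, k3, k4, k5, hvD] at h2 i1 i2 ⊢
  have key' := sum_ineq (S := S) hx0 key
  unfold PE B h
  push_cast at key'
  linarith

/-- A triangle in the neighbourhood. -/
theorem N5.tri (E : N5 G S v a b c d e) (hx0 : 0 ≤ x) (hab : G.Adj a b) (hac : G.Adj a c)
    (hbc : G.Adj b c) :
    h G x S ≤ B G x S {v} ∅ + B G x S {d} ∅ + B G x S {e} ∅ := by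
  have key : 1 * (dis G S).card ≤ cnt G S {v} ∅ + cnt G S {d} ∅ + cnt G S {e} ∅ := by
    simp only [cnt_sum, sing_iff]
    rw [Finset.card_eq_sum_ones]
    simp only [Finset.mul_sum, ← Finset.sum_add_distrib]
    apply Finset.sum_le_sum
    intro D hD
    by_cases hvD : v ∈ D
    · simp [hvD]
      omega
    · have h2 := E.two_le hD hvD
      have hind := (mem_dis.mp hD).2.1
      have i1 : ¬ (a ∈ D ∧ b ∈ D) := fun hh => hind a hh.1 b hh.2 hab
      have i2 : ¬ (a ∈ D ∧ c ∈ D) := fun hh => hind a hh.1 c hh.2 hac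
      have i3 : ¬ (b ∈ D ∧ c ∈ D) := fun hh => hind b hh.1 c hh.2 hbc
      by_cases k1 : a ∈ D <;> by_cases k2 : b ∈ D <;> by_cases k3 : c ∈ D <;>
        by_cases k4 : d ∈ D <;> by_cases k5 : e ∈ D <;>
        simp [k1, k2, k3, k4, k5, hvD] at h2 i1 i2 i3 ⊢
  have key' := sum_ineq (S := S) hx0 key
  unfold B h
  push_cast at key'
  linarith

/-- Neighbours of `a` outside `N[v]`. -/
def out (G : SimpleGraph V) (S : Finset V) (v a : V) : Finset V :=
  (nb G S a).filter (fun w => w ≠ v ∧ ¬ G.Adj v w)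

/-- Neighbours of `a` inside `N(v)`. -/
def inn (G : SimpleGraph V) (S : Finset V) (v a : V) : Finset V :=
  (nb G S a).filter (fun w => G.Adj v w)

theorem mem_out {w : V} : w ∈ out G S v a ↔ w ∈ S ∧ G.Adj a w ∧ w ≠ v ∧ ¬ G.Adj v w := by
  unfold out; rw [Finset.mem_filter, mem_nb]; tauto

theorem mem_inn {w : V} : w ∈ inn G S v a ↔ w ∈ S ∧ G.Adj a w ∧ G.Adj v w := by
  unfold inn; rw [Finset.mem_filter, mem_nb]; tauto

/-- `deg a = 1 + |inn a| + |out a|`. -/
theorem dg_split (hv : v ∈ S) (ha : a ∈ nb G S v) :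
    dg G S a = 1 + (inn G S v a).card + (out G S v a).card := by
  have hva := (mem_nb.mp ha).2
  have h1 : nb G S a = insert v (inn G S v a ∪ out G S v a) := by
    ext w
    rw [Finset.mem_insert, Finset.mem_union, mem_inn, mem_out, mem_nb]
    constructor
    · rintro ⟨h1, h2⟩
      by_cases k1 : w = v
      · exact Or.inl k1
      · by_cases k2 : G.Adj v w
        · exact Or.inr (Or.inl ⟨h1, h2, k2⟩)
        · exact Or.inr (Or.inr ⟨h1, h2, k1, k2⟩)
    · rintro (rfl | h1 | h1)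
      · exact ⟨hv, hva.symm⟩
      · exact ⟨h1.1, h1.2.1⟩
      · exact ⟨h1.1, h1.2.1⟩
  unfold H61DIS.dg
  rw [h1, Finset.card_insert_of_notMem, Finset.card_union_of_disjoint]
  · ring
  · rw [Finset.disjoint_left]
    intro w h2 h3
    exact (mem_out.mp h3).2.2.2 (mem_inn.mp h2).2.2
  · rw [Finset.mem_union]
    rintro (h2 | h2)
    · exact G.irrefl (mem_inn.mp h2).2.2
    · exact (mem_out.mp h2).2.2.1 rfl

/-- Common neighbours. -/
def cn (G : SimpleGraph V) (S : Finset V) (a b : V) : Finset V := nb G S a ∩ nb G S b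

/-- `|N(a) ∩ N(b)| = 1 + |inn a ∩ inn b| + |out a ∩ out b|`. -/
theorem cn_split (hv : v ∈ S) (ha : a ∈ nb G S v) (hb : b ∈ nb G S v) :
    (cn G S a b).card = 1 + (inn G S v a ∩ inn G S v b).card +
      (out G S v a ∩ out G S v b).card := by
  have hva := (mem_nb.mp ha).2
  have hvb := (mem_nb.mp hb).2
  have h1 : cn G S a b = insert v ((inn G S v a ∩ inn G S v b) ∪
      (out G S v a ∩ out G S v b)) := by
    ext w
    unfold cn
    rw [Finset.mem_insert, Finset.mem_union, Finset.mem_inter, Finset.mem_inter,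
      Finset.mem_inter, mem_inn, mem_inn, mem_out, mem_out, mem_nb, mem_nb]
    constructor
    · rintro ⟨⟨h1, h2⟩, -, h3⟩
      by_cases k1 : w = v
      · exact Or.inl k1
      · by_cases k2 : G.Adj v w
        · exact Or.inr (Or.inl ⟨⟨h1, h2, k2⟩, ⟨h1, h3, k2⟩⟩)
        · exact Or.inr (Or.inr ⟨⟨h1, h2, k1, k2⟩, ⟨h1, h3, k1, k2⟩⟩)
    · rintro (rfl | h1 | h1)
      · exact ⟨⟨hv, hva.symm⟩, ⟨hv, hvb.symm⟩⟩
      · exact ⟨⟨h1.1.1, h1.1.2.1⟩, ⟨h1.1.1, h1.2.2.1⟩⟩
      · exact ⟨⟨h1.1.1, h1.1.2.1⟩, ⟨h1.1.1, h1.2.2.1⟩⟩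
  rw [h1, Finset.card_insert_of_notMem, Finset.card_union_of_disjoint]
  · ring
  · rw [Finset.disjoint_left]
    intro w h2 h3
    exact (mem_out.mp (Finset.mem_inter.mp h3).1).2.2.2
      (mem_inn.mp (Finset.mem_inter.mp h2).1).2.2
  · rw [Finset.mem_union]
    rintro (h2 | h2)
    · exact G.irrefl (mem_inn.mp (Finset.mem_inter.mp h2).1).2.2
    · exact (mem_out.mp (Finset.mem_inter.mp h2).1).2.2.1 rfl

/-- Number of vertices removed by an exact pair. -/
theorem pair_removed (hv : v ∈ S) (h5 : dg G S v = 5) (ha : a ∈ nb G S v) :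
    6 + (out G S v a ∪ out G S v b).card + (rem G S {a, b} (nb G S v \ {a, b})).card ≤
      S.card := by
  have hva := (mem_nb.mp ha).2
  have h1 : (insert v (nb G S v) ∪ (out G S v a ∪ out G S v b)).card =
      6 + (out G S v a ∪ out G S v b).card := by
    rw [Finset.card_union_of_disjoint, Finset.card_insert_of_notMem
      (fun hh => G.irrefl (mem_nb.mp hh).2)]
    · unfold H61DIS.dg at h5
      rw [h5]
    · rw [Finset.disjoint_left]
      intro w h2 h3
      rw [Finset.mem_union, mem_out, mem_out] at h3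
      rcases Finset.mem_insert.mp h2 with rfl | h2
      · rcases h3 with h3 | h3 <;> exact h3.2.2.1 rfl
      · have := (mem_nb.mp h2).2
        rcases h3 with h3 | h3 <;> exact h3.2.2.2 this
  rw [← h1]
  apply card_blocked
  · intro w hw
    rw [Finset.mem_union, Finset.mem_insert, Finset.mem_union, mem_nb, mem_out, mem_out] at hw
    rcases hw with (rfl | hw) | (hw | hw)
    · exact hv
    · exact hw.1
    · exact hw.1
    · exact hw.1
  · intro w hw
    rw [Finset.mem_union, Finset.mem_insert, Finset.mem_union, mem_out, mem_out] at hw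
    rcases hw with (rfl | hw) | (hw | hw)
    · exact not_mem_rem_of_adj (t := a) (by simp) hva.symm
    · by_cases k : w ∈ ({a, b} : Finset V)
      · exact not_mem_rem_of_mem k
      · exact not_mem_rem_of_mem' (Finset.mem_sdiff.mpr ⟨hw, k⟩)
    · exact not_mem_rem_of_adj (t := a) (by simp) hw.2.1
    · exact not_mem_rem_of_adj (t := b) (by simp) hw.2.1

end

end D88
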